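import Mathlib

set_option autoImplicit false

open MvPolynomial TensorProduct Filter

namespace Pool.Agent.Results.MP_b7b517_ag.ProductClass

noncomputable section

section IitBasic

/-- Index set of the coordinates `x₀,x₁,x₂,y₀,…,y₃` of `P² × P³`. -/
abbrev V := Fin 3 ⊕ Fin 4

/-- The bidegree of each coordinate. -/
def wt : V → ℕ × ℕ := Sum.elim (fun _ => (1, 0)) (fun _ => (0, 1))

section
variable (k : Type*) [Field k]

/-- The bihomogeneous coordinate ring of `P² × P³`. -/
abbrev S := MvPolynomial V k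

abbrev A := MvPolynomial (Fin 3) k
abbrev B := MvPolynomial (Fin 4) k

/-- The forms of bidegree `(s,t)`. -/
def Bi (s t : ℕ) : Submodule k (S k) := weightedHomogeneousSubmodule k wt (s, t)

/-- The bigraded Hilbert function of `S/P`: the dimension of the bidegree `(s,t)` part of `S`
minus the dimension of its intersection with `P`. -/
def hilb (P : Ideal (S k)) (s t : ℕ) : ℕ :=
  Module.finrank k (Bi k s t) - Module.finrank k ↥(Bi k s t ⊓ P.restrictScalars k)

end

variable {k : Type*} [Field k]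

def ix : A k →ₐ[k] S k := rename Sum.inl
def iy : B k →ₐ[k] S k := rename Sum.inr

lemma ix_inj : Function.Injective (ix (k := k)) := rename_injective _ Sum.inl_injective
lemma iy_inj : Function.Injective (iy (k := k)) := rename_injective _ Sum.inr_injective

abbrev HA (s : ℕ) : Submodule k (A k) := homogeneousSubmodule (Fin 3) k s
abbrev HB (t : ℕ) : Submodule k (B k) := homogeneousSubmodule (Fin 4) k t

/-! dimension of the homogeneous pieces -/

lemma finrank_hom (n s : ℕ) :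
    Module.finrank k (homogeneousSubmodule (Fin (n + 1)) k s) = (n + s).choose n := by
  classical
  rw [homogeneousSubmodule_eq_finsupp_supported]
  rw [LinearEquiv.finrank_eq (AddMonoidAlgebra.supportedEquivFinsupp (S := k) (R := k)
    {d : Fin (n + 1) →₀ ℕ | d.degree = s})]
  have hset : {d : Fin (n + 1) →₀ ℕ | d.degree = s} =
      ((Finset.univ : Finset (Fin (n + 1))).finsuppAntidiag s : Set (Fin (n + 1) →₀ ℕ)) := by
    ext d
    simp [Finset.mem_finsuppAntidiag, Finsupp.degree_eq_sum]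
  have hfin : Finite {d : Fin (n + 1) →₀ ℕ | d.degree = s} := by
    rw [hset]; exact Finset.finite_toSet _
  have := Fintype.ofFinite {d : Fin (n + 1) →₀ ℕ | d.degree = s}
  rw [Module.finrank_finsupp_self, ← Nat.card_eq_fintype_card, Nat.card_coe_set_eq, hset,
    Set.ncard_coe_finset, Finset.card_finsuppAntidiag_nat_eq_choose]
  simp only [Finset.card_univ, Fintype.card_fin]
  rw [show n + 1 + s - 1 = n + s by omega]
  exact (Nat.choose_symm_of_eq_add rfl).symm ▸ rfl

instance (n s : ℕ) : FiniteDimensional k (homogeneousSubmodule (Fin n) k s) :=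
  Module.Finite.iff_fg.mpr (homogeneousSubmodule_fg (Fin n) k s)

lemma finrank_HA (s : ℕ) : Module.finrank k (HA (k := k) s) = (s + 2).choose 2 := by
  rw [finrank_hom, Nat.add_comm]

lemma finrank_HB (t : ℕ) : Module.finrank k (HB (k := k) t) = (t + 3).choose 3 := by
  rw [finrank_hom, Nat.add_comm]

lemma weight_wt (d : V →₀ ℕ) :
    Finsupp.weight wt d = (∑ i, d (Sum.inl i), ∑ j, d (Sum.inr j)) := by
  rw [Finsupp.weight_apply, Finsupp.sum_fintype _ _ (by intro; simp), Fintype.sum_sum_type]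
  ext <;> simp [wt, Prod.fst_sum, Prod.snd_sum]

lemma ix_mem {s : ℕ} {p : A k} (hp : p ∈ HA (k := k) s) : ix p ∈ Bi k s 0 := by
  classical
  have h : ∀ d ∈ p.support, ix (monomial d (coeff d p)) ∈ Bi k s 0 := by
    intro d hd
    have hd' := hp (mem_support_iff.mp hd)
    unfold ix Bi
    rw [rename_monomial, mem_weightedHomogeneousSubmodule]
    refine isWeightedHomogeneous_monomial _ _ _ ?_
    rw [weight_wt]
    have h1 : ∀ i, (Finsupp.mapDomain (Sum.inl : Fin 3 → V) d) (Sum.inl i) = d i := fun i =>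
      Finsupp.mapDomain_apply Sum.inl_injective _ _
    have h2 : ∀ j, (Finsupp.mapDomain (Sum.inl : Fin 3 → V) d) (Sum.inr j) = 0 := fun j =>
      Finsupp.mapDomain_of_notMem_range _ _ (by simp)
    simp only [h1, h2, Finset.sum_const_zero]
    rw [← hd', Finsupp.weight_apply, Finsupp.sum_fintype _ _ (by intro; simp)]
    simp
  rw [p.as_sum, map_sum]
  exact Submodule.sum_mem _ h

lemma iy_mem {t : ℕ} {q : B k} (hq : q ∈ HB (k := k) t) : iy q ∈ Bi k 0 t := by
  classical
  have h : ∀ d ∈ q.support, iy (monomial d (coeff d q)) ∈ Bi k 0 t := by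
    intro d hd
    have hd' := hq (mem_support_iff.mp hd)
    unfold iy Bi
    rw [rename_monomial, mem_weightedHomogeneousSubmodule]
    refine isWeightedHomogeneous_monomial _ _ _ ?_
    rw [weight_wt]
    have h1 : ∀ i, (Finsupp.mapDomain (Sum.inr : Fin 4 → V) d) (Sum.inr i) = d i := fun i =>
      Finsupp.mapDomain_apply Sum.inr_injective _ _
    have h2 : ∀ j, (Finsupp.mapDomain (Sum.inr : Fin 4 → V) d) (Sum.inl j) = 0 := fun j =>
      Finsupp.mapDomain_of_notMem_range _ _ (by simp)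
    simp only [h1, h2, Finset.sum_const_zero]
    rw [← hd', Finsupp.weight_apply, Finsupp.sum_fintype _ _ (by intro; simp)]
    simp
  rw [q.as_sum, map_sum]
  exact Submodule.sum_mem _ h

lemma Bi_mul {s t s' t' : ℕ} {F G : S k} (hF : F ∈ Bi k s t) (hG : G ∈ Bi k s' t') :
    F * G ∈ Bi k (s + s') (t + t') := by
  have := IsWeightedHomogeneous.mul (w := wt) hF hG
  exact this

lemma Bi_pow {s t : ℕ} {F : S k} (hF : F ∈ Bi k s t) (n : ℕ) : F ^ n ∈ Bi k (n * s) (n * t) := by
  have := IsWeightedHomogeneous.pow (w := wt) hF n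
  exact this

/-- the multiplication map `A_s ⊗ B_t → S` -/
def tm (s t : ℕ) : (HA (k := k) s) ⊗[k] (HB (k := k) t) →ₗ[k] S k :=
  TensorProduct.lift
    ((LinearMap.mul k (S k)).compl₁₂ (ix.toLinearMap ∘ₗ (HA (k := k) s).subtype)
      (iy.toLinearMap ∘ₗ (HB (k := k) t).subtype))

lemma tm_tmul (s t : ℕ) (p : HA (k := k) s) (q : HB (k := k) t) :
    tm s t (p ⊗ₜ q) = ix p.1 * iy q.1 := rfl

lemma monomial_split (d : V →₀ ℕ) (c : k) :
    (monomial d c : S k) = ix (monomial (d.comapDomain Sum.inl Sum.inl_injective.injOn) c) *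
      iy (monomial (d.comapDomain Sum.inr Sum.inr_injective.injOn) 1) := by
  unfold ix iy
  rw [rename_monomial, rename_monomial, monomial_mul, mul_one]
  refine congrArg (fun e => monomial e c) ?_
  ext v
  rw [Finsupp.add_apply]
  rcases v with i | j
  · rw [Finsupp.mapDomain_apply Sum.inl_injective, Finsupp.mapDomain_of_notMem_range _ _ (by simp)]
    simp
  · rw [Finsupp.mapDomain_apply Sum.inr_injective, Finsupp.mapDomain_of_notMem_range _ _ (by simp)]
    simp

lemma range_tm (s t : ℕ) : LinearMap.range (tm (k := k) s t) = Bi k s t := by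
  classical
  apply le_antisymm
  · rw [LinearMap.range_eq_map, ← TensorProduct.span_tmul_eq_top, Submodule.map_span,
      Submodule.span_le]
    rintro _ ⟨_, ⟨p, q, rfl⟩, rfl⟩
    rw [tm_tmul]
    have := Bi_mul (ix_mem p.2) (iy_mem q.2)
    simpa using this
  · intro F hF
    rw [F.as_sum]
    refine Submodule.sum_mem _ fun d hd => ?_
    have hd' := hF (mem_support_iff.mp hd)
    rw [weight_wt] at hd'
    rw [monomial_split]
    refine ⟨(⟨monomial (d.comapDomain Sum.inl Sum.inl_injective.injOn) (coeff d F), ?_⟩ :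
      HA (k := k) s) ⊗ₜ (⟨monomial (d.comapDomain Sum.inr Sum.inr_injective.injOn) 1, ?_⟩ :
      HB (k := k) t), rfl⟩
    · rw [mem_homogeneousSubmodule]
      refine isHomogeneous_monomial _ ?_
      rw [Finsupp.degree_eq_sum]
      simpa using congrArg Prod.fst hd'
    · rw [mem_homogeneousSubmodule]
      refine isHomogeneous_monomial _ ?_
      rw [Finsupp.degree_eq_sum]
      simpa using congrArg Prod.snd hd'

instance (s t : ℕ) : FiniteDimensional k (Bi k s t) := by
  rw [← range_tm]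
  infer_instance

lemma finrank_Bi_le (s t : ℕ) :
    Module.finrank k (Bi k s t) ≤ (s + 2).choose 2 * (t + 3).choose 3 := by
  rw [← range_tm]
  refine (LinearMap.finrank_range_le _).trans ?_
  rw [Module.finrank_tensorProduct, finrank_HA, finrank_HB]

lemma hilb_eq (P : Ideal (S k)) (s t : ℕ) :
    hilb k P s t = Module.finrank k ((Bi k s t).map (Ideal.Quotient.mkₐ k P).toLinearMap) := by
  unfold hilb
  have h1 := LinearMap.finrank_range_add_finrank_ker
    ((Ideal.Quotient.mkₐ k P).toLinearMap.domRestrict (Bi k s t))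
  rw [LinearMap.range_domRestrict, LinearMap.ker_domRestrict] at h1
  have h2 : Module.finrank k ↥((LinearMap.ker (Ideal.Quotient.mkₐ k P).toLinearMap).comap
      (Bi k s t).subtype) = Module.finrank k ↥(Bi k s t ⊓ P.restrictScalars k) := by
    rw [← Submodule.finrank_map_subtype_eq (Bi k s t), Submodule.map_comap_subtype]
    have h4 : Bi k s t ⊓ LinearMap.ker (Ideal.Quotient.mkₐ k P).toLinearMap =
        Bi k s t ⊓ P.restrictScalars k := by
      ext x
      have h3 : x ∈ LinearMap.ker (Ideal.Quotient.mkₐ k P).toLinearMap ↔ x ∈ P :=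
        Ideal.Quotient.eq_zero_iff_mem
      rw [Submodule.mem_inf, Submodule.mem_inf, h3]
      rfl
    rw [h4]
  omega

lemma hilb_le (P : Ideal (S k)) (s t : ℕ) :
    hilb k P s t ≤ (s + 2).choose 2 * (t + 3).choose 3 := by
  rw [hilb_eq]
  exact (Submodule.finrank_map_le _ _).trans (finrank_Bi_le s t)

end IitBasic

section IitDomain

variable {k : Type*} [Field k]

lemma tensor_domain {A' B' : Type*} [CommRing A'] [IsDomain A'] [Algebra k A']
    [CommRing B'] [IsDomain B'] [Algebra k B']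
    (hB : ∀ b : B', (∀ φ : B' →ₐ[k] k, φ b = 0) → b = 0)
    (z w : B' ⊗[k] A') (h : z * w = 0) : z = 0 ∨ w = 0 := by
  classical
  let b := Module.Basis.ofVectorSpace k A'
  let β := Algebra.TensorProduct.basis B' b
  have key : ∀ (φ : B' →ₐ[k] k) (z : B' ⊗[k] A'),
      Algebra.TensorProduct.lift ((Algebra.ofId k A').comp φ) (AlgHom.id k A')
        (fun _ _ => Commute.all _ _) z = (β.repr z).sum fun i c => φ c • b i := by
    intro φ z
    conv_lhs => rw [← β.linearCombination_repr z, Finsupp.linearCombination_apply]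
    rw [Finsupp.sum, Finsupp.sum, map_sum]
    refine Finset.sum_congr rfl fun i _ => ?_
    rw [Algebra.TensorProduct.basis_repr_symm_apply' b (β.repr z i) i,
      Algebra.TensorProduct.lift_tmul]
    simp [Algebra.ofId_apply, Algebra.smul_def]
  have key2 : ∀ (φ : B' →ₐ[k] k) (z : B' ⊗[k] A'),
      Algebra.TensorProduct.lift ((Algebra.ofId k A').comp φ) (AlgHom.id k A')
        (fun _ _ => Commute.all _ _) z = 0 → ∀ i, φ (β.repr z i) = 0 := by
    intro φ z hz i
    rw [key] at hz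
    by_cases hi : i ∈ (β.repr z).support
    · exact linearIndependent_iff'.mp b.linearIndependent _ _ hz i hi
    · rw [Finsupp.notMem_support_iff.mp hi, map_zero]
  have hprod : ∀ i j, β.repr z i * β.repr w j = 0 := by
    intro i j
    apply hB
    intro φ
    rw [map_mul]
    have h1 := congrArg (Algebra.TensorProduct.lift ((Algebra.ofId k A').comp φ) (AlgHom.id k A')
        (fun _ _ => Commute.all _ _)) h
    rw [map_mul, map_zero] at h1
    rcases mul_eq_zero.mp h1 with h2 | h2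
    · rw [key2 φ z h2 i, zero_mul]
    · rw [key2 φ w h2 j, mul_zero]
  by_cases hz : z = 0
  · exact Or.inl hz
  · right
    have hz' : β.repr z ≠ 0 := fun h0 => hz (by simpa using h0)
    obtain ⟨i, hi⟩ := Finsupp.ne_iff.mp hz'
    have hw : β.repr w = 0 := by
      ext j
      rcases mul_eq_zero.mp (hprod i j) with h3 | h3
      · exact absurd h3 hi
      · exact h3
    simpa using hw

lemma tensor_domain' {A' B' : Type*} [CommRing A'] [IsDomain A'] [Algebra k A']
    [CommRing B'] [IsDomain B'] [Algebra k B']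
    (hB : ∀ b : B', (∀ φ : B' →ₐ[k] k, φ b = 0) → b = 0)
    (z w : A' ⊗[k] B') (h : z * w = 0) : z = 0 ∨ w = 0 := by
  have h1 := congrArg (Algebra.TensorProduct.comm k A' B') h
  rw [map_mul, map_zero] at h1
  rcases tensor_domain hB _ _ h1 with h2 | h2
  · left; simpa using h2
  · right; simpa using h2

lemma quot_sep [IsAlgClosed k] {n : ℕ} (J : Ideal (MvPolynomial (Fin n) k)) [hJ : J.IsPrime]
    (b : MvPolynomial (Fin n) k ⧸ J) (hb : ∀ φ : (MvPolynomial (Fin n) k ⧸ J) →ₐ[k] k, φ b = 0) :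
    b = 0 := by
  obtain ⟨p, rfl⟩ := Ideal.Quotient.mk_surjective b
  rw [Ideal.Quotient.eq_zero_iff_mem]
  rw [← IsPrime.vanishingIdeal_zeroLocus (K := k) J, mem_vanishingIdeal_iff]
  intro x hx
  rw [mem_zeroLocus_iff] at hx
  exact hb (Ideal.Quotient.liftₐ J (aeval x) hx)

/-- The ideal `(f(x), g(y))`. -/
def Jfg (f : A k) (g : B k) : Ideal (S k) := Ideal.span {ix f, iy g}

def eAB : (A k) ⊗[k] (B k) ≃ₐ[k] S k := tensorEquivSum k (Fin 3) (Fin 4) k

lemma eAB_left (p : A k) : eAB (k := k) (p ⊗ₜ[k] (1 : B k)) = ix p := by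
  have : (eAB (k := k)).toAlgHom.comp (Algebra.TensorProduct.includeLeft) = ix := by
    apply MvPolynomial.algHom_ext
    intro i
    simp [eAB, ix]
  exact DFunLike.congr_fun this p

lemma eAB_right (q : B k) : eAB (k := k) ((1 : A k) ⊗ₜ[k] q) = iy q := by
  have : (eAB (k := k)).toAlgHom.comp (Algebra.TensorProduct.includeRight) = iy := by
    apply MvPolynomial.algHom_ext
    intro i
    simp [eAB, iy]
  exact DFunLike.congr_fun this q

lemma eAB_tmul (p : A k) (q : B k) : eAB (k := k) (p ⊗ₜ[k] q) = ix p * iy q := by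
  rw [← eAB_left, ← eAB_right, ← map_mul, Algebra.TensorProduct.tmul_mul_tmul, mul_one, one_mul]

/-- The quotient map `S → k[x]/(f) ⊗ k[y]/(g)`. -/
def psi (f : A k) (g : B k) : S k →ₐ[k]
    ((A k) ⧸ Ideal.span {f}) ⊗[k] ((B k) ⧸ Ideal.span {g}) :=
  (Algebra.TensorProduct.map (Ideal.Quotient.mkₐ k (Ideal.span {f}))
    (Ideal.Quotient.mkₐ k (Ideal.span {g}))).comp (eAB (k := k)).symm.toAlgHom

lemma psi_mul (f : A k) (g : B k) (p : A k) (q : B k) :
    psi f g (ix p * iy q) = (Ideal.Quotient.mk _ p) ⊗ₜ (Ideal.Quotient.mk _ q) := by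
  rw [← eAB_tmul]
  simp [psi]

lemma ker_mkq {R : Type*} [CommRing R] [Algebra k R] (I : Ideal R) :
    RingHom.ker (Ideal.Quotient.mkₐ k I) = I := by
  ext x
  rw [RingHom.mem_ker]
  exact Ideal.Quotient.eq_zero_iff_mem

lemma ker_psi (f : A k) (g : B k) : RingHom.ker (psi f g) = Jfg f g := by
  have h1 := Algebra.TensorProduct.map_ker (Ideal.Quotient.mkₐ k (Ideal.span {f}))
    (Ideal.Quotient.mkₐ k (Ideal.span {g})) (Ideal.Quotient.mkₐ_surjective _ _)
    (Ideal.Quotient.mkₐ_surjective _ _)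
  have h2 : RingHom.ker (psi f g) = Ideal.comap (eAB (k := k)).symm
      (RingHom.ker (Algebra.TensorProduct.map (Ideal.Quotient.mkₐ k (Ideal.span {f}))
    (Ideal.Quotient.mkₐ k (Ideal.span {g})))) := by
    ext x
    rw [RingHom.mem_ker, Ideal.mem_comap, RingHom.mem_ker]
    rfl
  rw [h2, h1]
  have h3 : ∀ I : Ideal ((A k) ⊗[k] (B k)), Ideal.comap (eAB (k := k)).symm I =
      Ideal.map (eAB (k := k)) I := by
    intro I
    exact (Ideal.map_comap_of_equiv (eAB (k := k)).toRingEquiv).symm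
  rw [h3, Ideal.map_sup, ker_mkq, ker_mkq, Ideal.map_span,
    Ideal.map_span, Ideal.map_span, Ideal.map_span]
  simp only [Set.image_singleton]
  rw [← Ideal.span_union]
  unfold Jfg
  congr 1
  have h4 : (eAB (k := k)) ((Algebra.TensorProduct.includeLeft : A k →ₐ[k] (A k) ⊗[k] (B k)) f) =
      ix f := eAB_left f
  have h5 : (eAB (k := k)) ((Algebra.TensorProduct.includeRight : B k →ₐ[k] (A k) ⊗[k] (B k)) g) =
      iy g := eAB_right g
  rw [h4, h5]
  rfl

lemma Jfg_prime [IsAlgClosed k] {f : A k} {g : B k} (hf : Prime f) (hg : Prime g) :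
    (Jfg f g).IsPrime := by
  have hf' : (Ideal.span {f}).IsPrime := (Ideal.span_singleton_prime hf.ne_zero).mpr hf
  have hg' : (Ideal.span {g}).IsPrime := (Ideal.span_singleton_prime hg.ne_zero).mpr hg
  have : Nontrivial (((A k) ⧸ Ideal.span {f}) ⊗[k] ((B k) ⧸ Ideal.span {g})) := inferInstance
  rw [← ker_psi]
  refine ⟨?_, ?_⟩
  · rw [Ne, Ideal.eq_top_iff_one, RingHom.mem_ker]
    have h1 : psi f g 1 = 1 := (psi f g).toRingHom.map_one
    rw [h1]
    intro h0
    obtain ⟨x, y, hxy⟩ := this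
    apply hxy
    have h2 : ∀ z : ((A k) ⧸ Ideal.span {f}) ⊗[k] ((B k) ⧸ Ideal.span {g}), z = 0 := by
      intro z
      calc z = 1 * z := (one_mul z).symm
        _ = 0 * z := by rw [h0]
        _ = 0 := zero_mul z
    rw [h2 x, h2 y]
  · intro x y hxy
    rw [RingHom.mem_ker, map_mul] at hxy
    rw [RingHom.mem_ker, RingHom.mem_ker]
    exact tensor_domain' (quot_sep _) _ _ hxy

end IitDomain

section IitHilb

variable {k : Type*} [Field k]

section hom

attribute [local instance] MvPolynomial.gradedAlgebra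

lemma comp_mul {n : ℕ} (w f : MvPolynomial (Fin n) k) {a : ℕ} (hf : f.IsHomogeneous a) (m : ℕ) :
    homogeneousComponent m (w * f) =
      if a ≤ m then homogeneousComponent (m - a) w * f else 0 := by
  have h := DirectSum.coe_decompose_mul_of_right_mem (homogeneousSubmodule (Fin n) k)
    (a := w) (b := f) (i := a) m hf
  have h1 : ∀ (φ : MvPolynomial (Fin n) k) (i : ℕ),
      ((DirectSum.decompose (homogeneousSubmodule (Fin n) k) φ) i : MvPolynomial (Fin n) k) =
        homogeneousComponent i φ := fun φ i => decomposition.decompose'_apply φ i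
  rw [h1, h1] at h
  exact h

end hom

/-- the map from forms of degree `s` to `k[x]/(f)` -/
def phiq {n : ℕ} (f : MvPolynomial (Fin n) k) (s : ℕ) :
    homogeneousSubmodule (Fin n) k s →ₗ[k] (MvPolynomial (Fin n) k ⧸ Ideal.span {f}) :=
  (Ideal.Quotient.mkₐ k (Ideal.span {f})).toLinearMap ∘ₗ (homogeneousSubmodule (Fin n) k s).subtype

lemma phiq_apply {n : ℕ} (f : MvPolynomial (Fin n) k) (s : ℕ)
    (p : homogeneousSubmodule (Fin n) k s) : phiq f s p = Ideal.Quotient.mk _ p.1 := rfl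

lemma finrank_ker_phiq {n : ℕ} {f : MvPolynomial (Fin n) k} {a : ℕ} (hf : f.IsHomogeneous a)
    (hf0 : f ≠ 0) (s : ℕ) :
    Module.finrank k (LinearMap.ker (phiq f (s + a))) =
      Module.finrank k (homogeneousSubmodule (Fin n) k s) := by
  let μ : homogeneousSubmodule (Fin n) k s →ₗ[k] homogeneousSubmodule (Fin n) k (s + a) :=
    ((LinearMap.mulRight k f).comp (homogeneousSubmodule (Fin n) k s).subtype).codRestrict _
      (fun p => IsHomogeneous.mul p.2 hf)
  have hμ : ∀ p, (μ p : MvPolynomial (Fin n) k) = p.1 * f := fun p => rfl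
  have hinj : Function.Injective μ := by
    intro p q hpq
    have := congrArg Subtype.val hpq
    rw [hμ, hμ] at this
    exact Subtype.ext (mul_right_cancel₀ hf0 this)
  have hrange : LinearMap.range μ = LinearMap.ker (phiq f (s + a)) := by
    ext p
    rw [LinearMap.mem_ker, phiq_apply, Ideal.Quotient.eq_zero_iff_mem, Ideal.mem_span_singleton']
    constructor
    · rintro ⟨q, rfl⟩
      exact ⟨q.1, (hμ q).symm⟩
    · rintro ⟨u, hu⟩
      refine ⟨⟨homogeneousComponent s u, homogeneousComponent_mem _ _⟩, ?_⟩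
      apply Subtype.ext
      rw [hμ]
      have h1 := homogeneousComponent_of_mem (m := s + a) p.2
      rw [if_pos rfl, ← hu, comp_mul u f hf, if_pos (by omega), Nat.add_sub_cancel] at h1
      rw [← hu]
      exact h1
  rw [← hrange]
  exact LinearMap.finrank_range_of_inj hinj

lemma finrank_range_phiq {n : ℕ} {f : MvPolynomial (Fin n) k} {a : ℕ} (hf : f.IsHomogeneous a)
    (hf0 : f ≠ 0) (s : ℕ) :
    Module.finrank k (LinearMap.range (phiq f (s + a))) +
      Module.finrank k (homogeneousSubmodule (Fin n) k s) =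
      Module.finrank k (homogeneousSubmodule (Fin n) k (s + a)) := by
  rw [← finrank_ker_phiq hf hf0 s]
  exact LinearMap.finrank_range_add_finrank_ker _

lemma finrank_map_of_ker {M M₁ M₂ : Type*} [AddCommGroup M] [Module k M] [AddCommGroup M₁]
    [Module k M₁] [AddCommGroup M₂] [Module k M₂] (φ₁ : M →ₗ[k] M₁) (φ₂ : M →ₗ[k] M₂)
    (h : LinearMap.ker φ₁ = LinearMap.ker φ₂) (W : Submodule k M) :
    Module.finrank k (W.map φ₁) = Module.finrank k (W.map φ₂) := by
  rw [← LinearMap.range_domRestrict, ← LinearMap.range_domRestrict]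
  have h1 : LinearMap.ker (φ₁.domRestrict W) = LinearMap.ker (φ₂.domRestrict W) := by
    rw [LinearMap.ker_domRestrict, LinearMap.ker_domRestrict, h]
  exact LinearEquiv.finrank_eq
    ((φ₁.domRestrict W).quotKerEquivRange.symm.trans
      ((Submodule.quotEquivOfEq _ _ h1).trans (φ₂.domRestrict W).quotKerEquivRange))

lemma finrank_range_tensor {M N M' N' : Type*} [AddCommGroup M] [Module k M] [AddCommGroup M']
    [Module k M'] [AddCommGroup N] [Module k N] [AddCommGroup N'] [Module k N']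
    (φ : M →ₗ[k] M') (χ : N →ₗ[k] N') :
    Module.finrank k (LinearMap.range (TensorProduct.map φ χ)) =
      Module.finrank k (LinearMap.range φ) * Module.finrank k (LinearMap.range χ) := by
  have h1 : TensorProduct.map φ χ =
      (TensorProduct.map (LinearMap.range φ).subtype (LinearMap.range χ).subtype) ∘ₗ
        (TensorProduct.map φ.rangeRestrict χ.rangeRestrict) := by
    rw [← TensorProduct.map_comp]
    rfl
  have hsurj : Function.Surjective (TensorProduct.map φ.rangeRestrict χ.rangeRestrict) :=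
    TensorProduct.map_surjective φ.surjective_rangeRestrict χ.surjective_rangeRestrict
  have hinj : Function.Injective
      (TensorProduct.map (LinearMap.range φ).subtype (LinearMap.range χ).subtype) :=
    TensorProduct.map_injective_of_flat_flat _ _ (Submodule.subtype_injective _)
      (Submodule.subtype_injective _)
  rw [h1, LinearMap.range_comp_of_range_eq_top _ (LinearMap.range_eq_top.mpr hsurj),
    LinearMap.finrank_range_of_inj hinj, Module.finrank_tensorProduct]

lemma hilb_Jfg (f : A k) (g : B k) (s t : ℕ) :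
    hilb k (Jfg f g) s t =
      Module.finrank k (LinearMap.range (phiq f s)) *
        Module.finrank k (LinearMap.range (phiq g t)) := by
  rw [hilb_eq]
  rw [finrank_map_of_ker _ (psi f g).toLinearMap]
  · rw [← range_tm, ← LinearMap.range_comp, ← finrank_range_tensor]
    have : (psi f g).toLinearMap ∘ₗ tm s t = TensorProduct.map (phiq f s) (phiq g t) := by
      apply TensorProduct.ext'
      intro p q
      rw [LinearMap.comp_apply, tm_tmul, TensorProduct.map_tmul, phiq_apply, phiq_apply,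
        ← psi_mul]
      rfl
    rw [this]
  · ext x
    rw [LinearMap.mem_ker, LinearMap.mem_ker]
    have h := ker_psi f g
    have h1 : x ∈ RingHom.ker (psi f g) ↔ x ∈ Jfg f g := by rw [h]
    rw [RingHom.mem_ker] at h1
    have h2 : (Ideal.Quotient.mkₐ k (Jfg f g)).toLinearMap x = 0 ↔ x ∈ Jfg f g :=
      Ideal.Quotient.eq_zero_iff_mem
    rw [h2, ← h1]
    rfl

end IitHilb

section IitClass

variable {k : Type*} [Field k]

section
variable (k)

/-- The cubic form `∑ e_a s^a t^(3-a) / (a! (3-a)!)` attached to a vector of intersection numbers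
`e_a = Z · H₁^a · H₂^(3-a)`, `H₁, H₂` the hyperplane classes of `P²` and `P³`. -/
def lead (e : Fin 4 → ℤ) (s t : ℕ) : ℝ :=
  ∑ a : Fin 4, (e a : ℝ) * ((s : ℝ) ^ (a : ℕ) / (a : ℕ).factorial) *
    ((t : ℝ) ^ (3 - (a : ℕ)) / (3 - (a : ℕ)).factorial)

/-- `e` is the numerical class of the `3`-dimensional subscheme of `P² × P³` with bihomogeneous
ideal `P`: its bigraded Hilbert function is `∑ e_a s^a t^(3-a) / (a! (3-a)!)` up to a term of order
at most two, for `s, t` large. (So `e_a = Z · H₁^a · H₂^(3-a)`, and `e = 0` when `dim Z < 3`.) -/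
def HasClass (P : Ideal (S k)) (e : Fin 4 → ℤ) : Prop :=
  ∃ (N : ℕ) (C : ℝ), ∀ s t : ℕ, N ≤ s → N ≤ t →
    |(hilb k P s t : ℝ) - lead e s t| ≤ C * ((s : ℝ) + t) ^ 2

end

lemma lead_eq (e : Fin 4 → ℤ) (s t : ℕ) : lead e s t =
    e 0 * (t : ℝ) ^ 3 / 6 + e 1 * (s : ℝ) * (t : ℝ) ^ 2 / 2 + e 2 * (s : ℝ) ^ 2 * (t : ℝ) / 2 +
      e 3 * (s : ℝ) ^ 3 / 6 := by
  unfold lead
  rw [Fin.sum_univ_four]
  have h3 : ((3 : Fin 4) : ℕ) = 3 := rfl
  have h2 : ((2 : Fin 4) : ℕ) = 2 := rfl
  have h1 : ((1 : Fin 4) : ℕ) = 1 := rfl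
  have h0 : ((0 : Fin 4) : ℕ) = 0 := rfl
  rw [h0, h1, h2, h3]
  norm_num [Nat.factorial]
  ring

lemma ch2 (s : ℕ) : (((s + 2).choose 2 : ℕ) : ℝ) = ((s : ℝ) + 2) * (s + 1) / 2 := by
  rw [Nat.cast_choose_two]
  push_cast
  ring

lemma ch3 (t : ℕ) : (((t + 3).choose 3 : ℕ) : ℝ) = ((t : ℝ) + 3) * (t + 2) * (t + 1) / 6 := by
  induction t with
  | zero => norm_num
  | succ n ih =>
    rw [show n + 1 + 3 = (n + 3) + 1 by ring, Nat.choose_succ_succ (n + 3) 2]
    rw [Nat.cast_add, ih, Nat.cast_choose_two]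
    push_cast
    ring

/-- The class `α` of `P¹ × P²` (line times plane): `α · H₁ · H₂² = 1`, the other three
intersection numbers vanish. -/
def alpha : Fin 4 → ℤ := ![0, 1, 0, 0]

lemma bound_aux (a b c1 c2 c3 s t : ℝ) (hs : 1 ≤ s) (ht : 1 ≤ t) :
    |(a * s + c1) * (b * t ^ 2 / 2 + c2 * t + c3) - a * b * s * t ^ 2 / 2| ≤
      (|a * c2| + |a * c3| + |c1 * b / 2| + |c1 * c2| + |c1 * c3|) * (s + t) ^ 2 := by
  have e1 : (a * s + c1) * (b * t ^ 2 / 2 + c2 * t + c3) - a * b * s * t ^ 2 / 2 =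
      (a * c2) * (s * t) + (a * c3) * s + (c1 * b / 2) * t ^ 2 + (c1 * c2) * t + (c1 * c3) * 1 := by
    ring
  rw [e1]
  have key : ∀ x y : ℝ, 0 ≤ y → y ≤ (s + t) ^ 2 → |x * y| ≤ |x| * (s + t) ^ 2 := by
    intro x y h0 hy
    rw [abs_mul, abs_of_nonneg h0]
    exact mul_le_mul_of_nonneg_left hy (abs_nonneg x)
  have k1 := key (a * c2) (s * t) (by positivity) (by nlinarith)
  have k2 := key (a * c3) s (by positivity) (by nlinarith)
  have k3 := key (c1 * b / 2) (t ^ 2) (by positivity) (by nlinarith)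
  have k4 := key (c1 * c2) t (by positivity) (by nlinarith)
  have k5 := key (c1 * c3) 1 (by positivity) (by nlinarith)
  have t1 := abs_add_le ((a * c2) * (s * t) + (a * c3) * s + (c1 * b / 2) * t ^ 2 + (c1 * c2) * t)
    ((c1 * c3) * 1)
  have t2 := abs_add_le ((a * c2) * (s * t) + (a * c3) * s + (c1 * b / 2) * t ^ 2)
    ((c1 * c2) * t)
  have t3 := abs_add_le ((a * c2) * (s * t) + (a * c3) * s) ((c1 * b / 2) * t ^ 2)
  have t4 := abs_add_le ((a * c2) * (s * t)) ((a * c3) * s)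
  linarith

lemma class_Jfg {f : A k} {g : B k} {a b : ℕ} (hf : f.IsHomogeneous a) (hg : g.IsHomogeneous b)
    (hf0 : f ≠ 0) (hg0 : g ≠ 0) : HasClass k (Jfg f g) ((a * b) • alpha) := by
  refine ⟨a + b + 1, |(a : ℝ) * (2 * b - b ^ 2 / 2)| +
    |(a : ℝ) * ((b ^ 3 - 6 * b ^ 2 + 11 * b) / 6)| + |(3 * a - a ^ 2) / 2 * (b : ℝ) / 2| +
    |(3 * a - a ^ 2) / 2 * (2 * (b : ℝ) - b ^ 2 / 2)| +
    |(3 * a - a ^ 2) / 2 * (((b : ℝ) ^ 3 - 6 * b ^ 2 + 11 * b) / 6)|, ?_⟩
  intro s t hs ht
  have hx := finrank_range_phiq hf hf0 (s - a)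
  have hy := finrank_range_phiq hg hg0 (t - b)
  rw [Nat.sub_add_cancel (by omega), finrank_HA, finrank_HA] at hx
  rw [Nat.sub_add_cancel (by omega), finrank_HB, finrank_HB] at hy
  have hx' : (Module.finrank k (LinearMap.range (phiq f s)) : ℝ) =
      a * s + (3 * a - a ^ 2) / 2 := by
    have := congrArg (Nat.cast : ℕ → ℝ) hx
    rw [Nat.cast_add, ch2, ch2, Nat.cast_sub (by omega)] at this
    linarith
  have hy' : (Module.finrank k (LinearMap.range (phiq g t)) : ℝ) =
      b * t ^ 2 / 2 + (2 * b - b ^ 2 / 2) * t + (b ^ 3 - 6 * b ^ 2 + 11 * b) / 6 := by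
    have := congrArg (Nat.cast : ℕ → ℝ) hy
    rw [Nat.cast_add, ch3, ch3, Nat.cast_sub (by omega)] at this
    linarith
  rw [hilb_Jfg, Nat.cast_mul, hx', hy', lead_eq]
  have e0 : ((a * b) • alpha) 0 = 0 := by simp [alpha]
  have e1 : ((a * b) • alpha) 1 = (a * b : ℕ) := by simp [alpha]
  have e2 : ((a * b) • alpha) 2 = 0 := by simp [alpha]
  have e3 : ((a * b) • alpha) 3 = 0 := by simp [alpha]
  rw [e0, e1, e2, e3]
  push_cast
  have hs1 : (1 : ℝ) ≤ s := by exact_mod_cast (by omega : 1 ≤ s)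
  have ht1 : (1 : ℝ) ≤ t := by exact_mod_cast (by omega : 1 ≤ t)
  have := bound_aux a b ((3 * a - a ^ 2) / 2) (2 * b - b ^ 2 / 2)
    ((b ^ 3 - 6 * b ^ 2 + 11 * b) / 6) s t hs1 ht1
  convert this using 2
  ring

end IitClass

section IitSign

variable {k : Type*} [Field k]

lemma lin_le {c K : ℝ} (h : ∀ᶠ x : ℕ in atTop, c * x ≤ K) : c ≤ 0 := by
  by_contra hc
  push Not at hc
  have h1 : ∀ᶠ x : ℕ in atTop, K / c < x := tendsto_natCast_atTop_atTop.eventually_gt_atTop _
  obtain ⟨x, hx1, hx2⟩ := (h.and h1).exists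
  rw [div_lt_iff₀ hc] at hx2
  linarith

lemma pow_le {c K : ℝ} (n : ℕ) (h : ∀ᶠ x : ℕ in atTop, c * (x : ℝ) ^ (n + 1) ≤ K * (x : ℝ) ^ n) :
    c ≤ 0 := by
  apply lin_le (K := K)
  filter_upwards [h, eventually_gt_atTop 0] with x hx hx0
  have hp : (0 : ℝ) < (x : ℝ) ^ n := by positivity
  have : (c * x) * (x : ℝ) ^ n ≤ K * (x : ℝ) ^ n := by
    calc (c * x) * (x : ℝ) ^ n = c * (x : ℝ) ^ (n + 1) := by ring
      _ ≤ _ := hx
  exact le_of_mul_le_mul_right this hp

/-- bounding a polynomial of degree `≤ 2` by its leading power -/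
lemma quad_bound (a b c x : ℝ) (hx : 1 ≤ x) :
    a * x ^ 2 + b * x + c ≤ (|a| + |b| + |c|) * x ^ 2 := by
  have h1 : a * x ^ 2 ≤ |a| * x ^ 2 := by
    apply mul_le_mul_of_nonneg_right (le_abs_self a) (by positivity)
  have h2 : b * x ≤ |b| * x ^ 2 := by
    calc b * x ≤ |b| * x := mul_le_mul_of_nonneg_right (le_abs_self b) (by positivity)
      _ ≤ |b| * x ^ 2 := mul_le_mul_of_nonneg_left (by nlinarith) (abs_nonneg b)
  have h3 : c ≤ |c| * x ^ 2 := by
    calc c ≤ |c| * 1 := by rw [mul_one]; exact le_abs_self c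
      _ ≤ |c| * x ^ 2 := mul_le_mul_of_nonneg_left (by nlinarith) (abs_nonneg c)
  linarith

lemma three_nonneg {P : Ideal (S k)} {e : Fin 4 → ℤ} (h : HasClass k P e) : 0 ≤ e 3 := by
  obtain ⟨N, C, h⟩ := h
  have h2 : ∀ᶠ s : ℕ in atTop, (-(e 3 : ℝ) / 6) * (s : ℝ) ^ (2 + 1) ≤
      (|(e 2 : ℝ) * N / 2 + C| + |(e 1 : ℝ) * N ^ 2 / 2 + 2 * C * N| +
        |(e 0 : ℝ) * N ^ 3 / 6 + C * N ^ 2|) * (s : ℝ) ^ 2 := by
    filter_upwards [eventually_ge_atTop N, eventually_ge_atTop 1] with s hs hs1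
    have h1 := (abs_le.mp (h s N hs le_rfl)).2
    have h0 : (0 : ℝ) ≤ hilb k P s N := Nat.cast_nonneg _
    rw [lead_eq] at h1
    refine le_trans ?_ (quad_bound _ _ _ (s : ℝ) (by exact_mod_cast hs1))
    nlinarith
  have h3 := pow_le 2 h2
  have : (0 : ℝ) ≤ e 3 := by linarith
  exact_mod_cast this

lemma three_nonpos {P : Ideal (S k)} {e : Fin 4 → ℤ} (h : HasClass k P e) : e 3 ≤ 0 := by
  obtain ⟨N, C, h⟩ := h
  have h2 : ∀ᶠ s : ℕ in atTop, ((e 3 : ℝ) / 6) * (s : ℝ) ^ (2 + 1) ≤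
      (|-(e 2 : ℝ) * N / 2 + C + ((N + 3).choose 3 : ℕ) / 2| +
        |-(e 1 : ℝ) * N ^ 2 / 2 + 2 * C * N + 3 * ((N + 3).choose 3 : ℕ) / 2| +
        |-(e 0 : ℝ) * N ^ 3 / 6 + C * N ^ 2 + ((N + 3).choose 3 : ℕ)|) * (s : ℝ) ^ 2 := by
    filter_upwards [eventually_ge_atTop N, eventually_ge_atTop 1] with s hs hs1
    have h1 := (abs_le.mp (h s N hs le_rfl)).1
    have h0 : (hilb k P s N : ℝ) ≤ ((s + 2).choose 2 * (N + 3).choose 3 : ℕ) := by
      exact_mod_cast hilb_le P s N
    rw [Nat.cast_mul, ch2] at h0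
    rw [lead_eq] at h1
    refine le_trans ?_ (quad_bound _ _ _ (s : ℝ) (by exact_mod_cast hs1))
    nlinarith
  have h3 := pow_le 2 h2
  have : (e 3 : ℝ) ≤ 0 := by linarith
  exact_mod_cast this

lemma zero_nonneg {P : Ideal (S k)} {e : Fin 4 → ℤ} (h : HasClass k P e) : 0 ≤ e 0 := by
  obtain ⟨N, C, h⟩ := h
  have h2 : ∀ᶠ t : ℕ in atTop, (-(e 0 : ℝ) / 6) * (t : ℝ) ^ (2 + 1) ≤
      (|(e 1 : ℝ) * N / 2 + C| + |(e 2 : ℝ) * N ^ 2 / 2 + 2 * C * N| +
        |(e 3 : ℝ) * N ^ 3 / 6 + C * N ^ 2|) * (t : ℝ) ^ 2 := by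
    filter_upwards [eventually_ge_atTop N, eventually_ge_atTop 1] with t ht ht1
    have h1 := (abs_le.mp (h N t le_rfl ht)).2
    have h0 : (0 : ℝ) ≤ hilb k P N t := Nat.cast_nonneg _
    rw [lead_eq] at h1
    refine le_trans ?_ (quad_bound _ _ _ (t : ℝ) (by exact_mod_cast ht1))
    nlinarith
  have h3 := pow_le 2 h2
  have : (0 : ℝ) ≤ e 0 := by linarith
  exact_mod_cast this

lemma two_nonneg {P : Ideal (S k)} {e : Fin 4 → ℤ} (h : HasClass k P e) : 0 ≤ e 2 := by
  have h30 : e 3 = 0 := le_antisymm (three_nonpos h) (three_nonneg h)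
  obtain ⟨N, C, h⟩ := h
  have key : ∀ t : ℕ, N ≤ t → 1 ≤ t → (-(e 2 : ℝ) / 2) * t ≤ C := by
    intro t ht ht1
    have h2 : ∀ᶠ s : ℕ in atTop, ((-(e 2 : ℝ) / 2) * t - C) * (s : ℝ) ^ (1 + 1) ≤
        (|(e 1 : ℝ) * t ^ 2 / 2 + 2 * C * t| + |(e 0 : ℝ) * t ^ 3 / 6 + C * t ^ 2|) *
          (s : ℝ) ^ 1 := by
      filter_upwards [eventually_ge_atTop N, eventually_ge_atTop 1] with s hs hs1
      have h1 := (abs_le.mp (h s t hs ht)).2
      have h0 : (0 : ℝ) ≤ hilb k P s t := Nat.cast_nonneg _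
      rw [lead_eq, h30] at h1
      have hs1' : (1 : ℝ) ≤ s := by exact_mod_cast hs1
      have b1 : ((e 1 : ℝ) * t ^ 2 / 2 + 2 * C * t) * s ≤
          |(e 1 : ℝ) * t ^ 2 / 2 + 2 * C * t| * s :=
        mul_le_mul_of_nonneg_right (le_abs_self _) (by positivity)
      have b2 : ((e 0 : ℝ) * t ^ 3 / 6 + C * t ^ 2) ≤
          |(e 0 : ℝ) * t ^ 3 / 6 + C * t ^ 2| * s := by
        calc _ ≤ |(e 0 : ℝ) * t ^ 3 / 6 + C * t ^ 2| * 1 := by
              rw [mul_one]; exact le_abs_self _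
          _ ≤ _ := mul_le_mul_of_nonneg_left hs1' (abs_nonneg _)
      push_cast at h1
      nlinarith
    have := pow_le 1 h2
    linarith
  have h4 : (-(e 2 : ℝ) / 2) ≤ 0 := by
    apply lin_le (K := C)
    filter_upwards [eventually_ge_atTop N, eventually_ge_atTop 1] with t ht ht1
    exact key t ht ht1
  have : (0 : ℝ) ≤ e 2 := by linarith
  exact_mod_cast this

lemma one_nonneg' {P : Ideal (S k)} {e : Fin 4 → ℤ} (h : HasClass k P e) (h0 : e 0 = 0)
    (h2 : e 2 = 0) : 0 ≤ e 1 := by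
  have h30 : e 3 = 0 := le_antisymm (three_nonpos h) (three_nonneg h)
  obtain ⟨N, C, h⟩ := h
  have h4 : ∀ᶠ s : ℕ in atTop, (-(e 1 : ℝ) / 2) * (s : ℝ) ^ (2 + 1) ≤
      (4 * C) * (s : ℝ) ^ 2 := by
    filter_upwards [eventually_ge_atTop N] with s hs
    have h1 := (abs_le.mp (h s s hs hs)).2
    have h5 : (0 : ℝ) ≤ hilb k P s s := Nat.cast_nonneg _
    rw [lead_eq, h30, h0, h2] at h1
    push_cast at h1
    nlinarith
  have h3 := pow_le 2 h4
  have : (0 : ℝ) ≤ e 1 := by linarith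
  exact_mod_cast this

end IitSign

section IitElim

variable {k : Type*} [Field k]

/-- the bigraded piece of `S/P` -/
abbrev Im (P : Ideal (S k)) (s t : ℕ) : Submodule k (S k ⧸ P) :=
  (Bi k s t).map (Ideal.Quotient.mkₐ k P).toLinearMap

lemma mem_Im {P : Ideal (S k)} {s t : ℕ} {F : S k} (hF : F ∈ Bi k s t) :
    Ideal.Quotient.mk P F ∈ Im P s t := ⟨F, hF, rfl⟩

lemma le_hilb {W : Type*} [AddCommGroup W] [Module k W] (P : Ideal (S k)) (s t : ℕ)
    (φ : W →ₗ[k] (S k ⧸ P)) (hφ : Function.Injective φ) (hr : ∀ w, φ w ∈ Im P s t) :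
    Module.finrank k W ≤ hilb k P s t := by
  have h : Function.Injective (φ.codRestrict (Im P s t) hr) := by
    intro a b hab
    exact hφ (congrArg Subtype.val hab)
  rw [hilb_eq]
  exact LinearMap.finrank_le_finrank_of_injective h

lemma X_inl_mem (i : Fin 3) : (X (Sum.inl i) : S k) ∈ Bi k 1 0 :=
  isWeightedHomogeneous_X k wt (Sum.inl i)

lemma X_inr_mem (j : Fin 4) : (X (Sum.inr j) : S k) ∈ Bi k 0 1 :=
  isWeightedHomogeneous_X k wt (Sum.inr j)

lemma exists_y (P : Ideal (S k)) [hP : P.IsPrime] (hx : ∃ i, (X (Sum.inl i) : S k) ∉ P) {c : ℤ}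
    (hc : HasClass k P (c • alpha)) : ∃ (t : ℕ) (g : B k), g.IsHomogeneous t ∧ g ≠ 0 ∧ iy g ∈ P := by
  by_contra hcon
  push Not at hcon
  obtain ⟨i, hi⟩ := hx
  obtain ⟨N, C, h⟩ := hc
  have hge : ∀ s t : ℕ, (t + 3).choose 3 ≤ hilb k P s t := by
    intro s t
    rw [← finrank_HB (k := k)]
    let φ : HB (k := k) t →ₗ[k] (S k ⧸ P) :=
      (Ideal.Quotient.mkₐ k P).toLinearMap ∘ₗ (LinearMap.mulLeft k ((X (Sum.inl i) : S k) ^ s)) ∘ₗ
        iy.toLinearMap ∘ₗ (HB (k := k) t).subtype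
    have hφ : ∀ g, φ g = Ideal.Quotient.mk P (X (Sum.inl i) ^ s * iy g.1) := fun _ => rfl
    refine le_hilb P s t φ ?_ ?_
    · rw [← LinearMap.ker_eq_bot, LinearMap.ker_eq_bot']
      intro g hg
      rw [hφ, Ideal.Quotient.eq_zero_iff_mem] at hg
      rcases hP.mem_or_mem hg with h1 | h1
      · exact absurd (hP.mem_of_pow_mem _ h1) hi
      · by_contra hg0
        exact hcon t g.1 g.2 (fun h0 => hg0 (Subtype.ext h0)) h1
    · intro g
      rw [hφ]
      apply mem_Im
      have := Bi_mul (Bi_pow (X_inl_mem (k := k) i) s) (iy_mem g.2)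
      simpa using this
  have h2 : ∀ᶠ t : ℕ in atTop, (1 / 6 : ℝ) * (t : ℝ) ^ (2 + 1) ≤
      (|(c : ℝ) * N / 2 + C| + |2 * C * N| + |C * N ^ 2|) * (t : ℝ) ^ 2 := by
    filter_upwards [eventually_ge_atTop N, eventually_ge_atTop 1] with t ht ht1
    have h1 := (abs_le.mp (h N t le_rfl ht)).2
    have h0 : (((t + 3).choose 3 : ℕ) : ℝ) ≤ hilb k P N t := by exact_mod_cast hge N t
    rw [ch3] at h0
    rw [lead_eq] at h1
    have e0 : (c • alpha) 0 = 0 := by simp [alpha]
    have e1 : (c • alpha) 1 = c := by simp [alpha]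
    have e2 : (c • alpha) 2 = 0 := by simp [alpha]
    have e3 : (c • alpha) 3 = 0 := by simp [alpha]
    rw [e0, e1, e2, e3] at h1
    push_cast at h1
    refine le_trans ?_ (quad_bound _ _ _ (t : ℝ) (by exact_mod_cast ht1))
    have ht0 : (0 : ℝ) ≤ t := Nat.cast_nonneg _
    nlinarith
  have h3 := pow_le 2 h2
  norm_num at h3

lemma peel (P : Ideal (S k)) [hP : P.IsPrime] (Y Y0 : S k) (hY0 : Y0 ∉ P) (c : ℕ → A k) (n : ℕ)
    (hne : ∃ l ≤ n, c l ≠ 0)
    (h : ∑ l ∈ Finset.range (n + 1), ix (c l) * Y ^ l * Y0 ^ (n - l) ∈ P) :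
    ∃ τ ≤ n, c τ ≠ 0 ∧ ∑ l ∈ Finset.range (τ + 1), ix (c l) * Y ^ l * Y0 ^ (τ - l) ∈ P := by
  induction n with
  | zero =>
    obtain ⟨l, hl, hcl⟩ := hne
    have : l = 0 := by omega
    subst this
    exact ⟨0, le_rfl, hcl, h⟩
  | succ n ih =>
    by_cases hc : c (n + 1) = 0
    · have h1 : ∃ l ≤ n, c l ≠ 0 := by
        obtain ⟨l, hl, hcl⟩ := hne
        refine ⟨l, ?_, hcl⟩
        by_contra hln
        have : l = n + 1 := by omega
        exact hcl (this ▸ hc)
      rw [Finset.sum_range_succ, hc, map_zero, zero_mul, zero_mul, add_zero] at h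
      have h2 : ∑ l ∈ Finset.range (n + 1), ix (c l) * Y ^ l * Y0 ^ (n + 1 - l) =
          Y0 * ∑ l ∈ Finset.range (n + 1), ix (c l) * Y ^ l * Y0 ^ (n - l) := by
        rw [Finset.mul_sum]
        refine Finset.sum_congr rfl fun l hl => ?_
        rw [Finset.mem_range] at hl
        rw [show n + 1 - l = (n - l) + 1 by omega, pow_succ]
        ring
      rw [h2] at h
      rcases hP.mem_or_mem h with h3 | h3
      · exact absurd h3 hY0
      · obtain ⟨τ, h4, h5, h6⟩ := ih h1 h3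
        exact ⟨τ, by omega, h5, h6⟩
    · exact ⟨n + 1, le_rfl, hc, h⟩

lemma rel_exists (P : Ideal (S k)) [hP : P.IsPrime] (j0 : Fin 4) (hj0 : (X (Sum.inr j0) : S k) ∉ P)
    (hx : ∀ (s : ℕ) (f : A k), f.IsHomogeneous s → ix f ∈ P → f = 0) (σ T : ℕ) (hT : 1 ≤ T)
    (hlt : hilb k P σ T < (T + 1) * (σ + 2).choose 2) (j : Fin 4) :
    ∃ (c : A k) (G : S k), c.IsHomogeneous σ ∧ c ≠ 0 ∧ G ∈ Bi k σ (T - 1) ∧
      ix c * X (Sum.inr j) ^ T - X (Sum.inr j0) * G ∈ P := by
  classical
  set Y : S k := X (Sum.inr j) with hY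
  set Y0 : S k := X (Sum.inr j0) with hY0
  have hYm : Y ∈ Bi k 0 1 := X_inr_mem j
  have hY0m : Y0 ∈ Bi k 0 1 := X_inr_mem j0
  let L : (Fin (T + 1) → HA (k := k) σ) →ₗ[k] (S k ⧸ P) :=
    ∑ l : Fin (T + 1), (Ideal.Quotient.mkₐ k P).toLinearMap ∘ₗ
      (LinearMap.mulRight k (Y ^ (l : ℕ) * Y0 ^ (T - (l : ℕ)))) ∘ₗ ix.toLinearMap ∘ₗ
      (HA (k := k) σ).subtype ∘ₗ LinearMap.proj l
  have hL : ∀ v, L v = Ideal.Quotient.mk P
      (∑ l : Fin (T + 1), ix (v l).1 * (Y ^ (l : ℕ) * Y0 ^ (T - (l : ℕ)))) := by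
    intro v
    rw [map_sum]
    simp only [L, LinearMap.sum_apply]
    rfl
  have hnot : ¬ Function.Injective L := by
    intro hinj
    have := le_hilb P σ T L hinj (by
      intro v
      rw [hL]
      apply mem_Im
      refine Submodule.sum_mem _ fun l _ => ?_
      have h1 := Bi_mul (ix_mem (v l).2) (Bi_mul (Bi_pow hYm (l : ℕ)) (Bi_pow hY0m (T - (l : ℕ))))
      have h2 : 0 + ((l : ℕ) * 1 + (T - (l : ℕ)) * 1) = T := by
        have := l.isLt
        omega
      have h3 : σ + ((l : ℕ) * 0 + (T - (l : ℕ)) * 0) = σ := by ring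
      rw [h2, h3] at h1
      exact h1)
    rw [Module.finrank_pi_fintype] at this
    simp only [finrank_HA, Finset.sum_const, Finset.card_univ, Fintype.card_fin,
      smul_eq_mul] at this
    omega
  rw [← LinearMap.ker_eq_bot, Submodule.eq_bot_iff] at hnot
  push Not at hnot
  obtain ⟨v, hv, hv0⟩ := hnot
  rw [LinearMap.mem_ker, hL, Ideal.Quotient.eq_zero_iff_mem] at hv
  let c : ℕ → A k := fun l => if h : l < T + 1 then (v ⟨l, h⟩).1 else 0
  have hcl : ∀ l : Fin (T + 1), c l = (v l).1 := by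
    intro l
    simp only [c]
    rw [dif_pos l.isLt]
  have hchom : ∀ l, (c l).IsHomogeneous σ := by
    intro l
    simp only [c]
    split_ifs with h
    · exact (v ⟨l, h⟩).2
    · exact isHomogeneous_zero _ _ _
  have hsum : ∑ l ∈ Finset.range (T + 1), ix (c l) * Y ^ l * Y0 ^ (T - l) ∈ P := by
    rw [Finset.sum_range]
    convert hv using 2 with l
    rw [hcl, mul_assoc]
  have hne : ∃ l ≤ T, c l ≠ 0 := by
    obtain ⟨l, hl⟩ := Function.ne_iff.mp hv0
    refine ⟨l, by have := l.isLt; omega, ?_⟩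
    rw [hcl]
    intro h0
    exact hl (Subtype.ext h0)
  obtain ⟨τ, hτ, hcτ, hsτ⟩ := peel P Y Y0 hj0 c T hne hsum
  have hτ1 : 1 ≤ τ := by
    by_contra h0
    have : τ = 0 := by omega
    subst this
    rw [Finset.sum_range_one] at hsτ
    simp only [pow_zero, mul_one, Nat.sub_self] at hsτ
    exact hcτ (hx σ (c 0) (hchom 0) hsτ)
  obtain ⟨ρ, rfl⟩ : ∃ ρ, τ = ρ + 1 := ⟨τ - 1, by omega⟩
  refine ⟨c (ρ + 1), - (Y ^ (T - (ρ + 1)) * ∑ l ∈ Finset.range (ρ + 1),
    ix (c l) * Y ^ l * Y0 ^ (ρ - l)), hchom _, hcτ, ?_, ?_⟩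
  · refine Submodule.neg_mem _ ?_
    rw [Finset.mul_sum]
    refine Submodule.sum_mem _ fun l hl => ?_
    rw [Finset.mem_range] at hl
    have h1 := Bi_mul (Bi_pow hYm (T - (ρ + 1))) (Bi_mul (Bi_mul (ix_mem (hchom l)) (Bi_pow hYm l))
      (Bi_pow hY0m (ρ - l)))
    have h2 : (T - (ρ + 1)) * 1 + (0 + l * 1 + (ρ - l) * 1) = T - 1 := by omega
    have h3 : (T - (ρ + 1)) * 0 + (σ + l * 0 + (ρ - l) * 0) = σ := by ring
    rw [h2, h3] at h1
    exact h1
  · have h4 : ix (c (ρ + 1)) * Y ^ T - Y0 * -(Y ^ (T - (ρ + 1)) * ∑ l ∈ Finset.range (ρ + 1),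
        ix (c l) * Y ^ l * Y0 ^ (ρ - l)) = Y ^ (T - (ρ + 1)) *
        ∑ l ∈ Finset.range (ρ + 1 + 1), ix (c l) * Y ^ l * Y0 ^ (ρ + 1 - l) := by
      rw [Finset.sum_range_succ _ (ρ + 1), mul_add, Nat.sub_self, pow_zero, mul_one]
      have h5 : ∑ l ∈ Finset.range (ρ + 1), ix (c l) * Y ^ l * Y0 ^ (ρ + 1 - l) =
          Y0 * ∑ l ∈ Finset.range (ρ + 1), ix (c l) * Y ^ l * Y0 ^ (ρ - l) := by
        rw [Finset.mul_sum]
        refine Finset.sum_congr rfl fun l hl => ?_
        rw [Finset.mem_range] at hl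
        rw [show ρ + 1 - l = (ρ - l) + 1 by omega, pow_succ]
        ring
      rw [h5]
      have h6 : Y ^ T = Y ^ (T - (ρ + 1)) * Y ^ (ρ + 1) := by
        rw [← pow_add]
        congr 1
        omega
      rw [h6]
      ring
    rw [h4]
    exact P.mul_mem_left _ hsτ

lemma monomial_erase (d : V →₀ ℕ) (a : k) (j : Fin 4) (T : ℕ) (h : T ≤ d (Sum.inr j)) :
    (monomial d a : S k) = X (Sum.inr j) ^ T * monomial (d - Finsupp.single (Sum.inr j) T) a := by
  classical
  rw [X_pow_eq_monomial, monomial_mul, one_mul]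
  congr 1
  rw [add_tsub_cancel_of_le]
  rw [Finsupp.single_le_iff]
  exact h

lemma push_down (P : Ideal (S k)) (j0 : Fin 4) (σ T : ℕ) (hT : 1 ≤ T)
    (c : Fin 4 → A k) (G : Fin 4 → S k) (hc : ∀ j, (c j).IsHomogeneous σ)
    (hG : ∀ j, G j ∈ Bi k σ (T - 1))
    (hr : ∀ j, ix (c j) * X (Sum.inr j) ^ T - X (Sum.inr j0) * G j ∈ P) (s t : ℕ)
    (ht : 4 * T ≤ t + 1) (F : S k) (hF : F ∈ Bi k s (t + 1)) :
    ∃ H ∈ Bi k (s + 4 * σ) t, ix (∏ j, c j) * F - X (Sum.inr j0) * H ∈ P := by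
  classical
  let M : Submodule k (S k) :=
    { carrier := {F | ∃ H ∈ Bi k (s + 4 * σ) t, ix (∏ j, c j) * F - X (Sum.inr j0) * H ∈ P}
      add_mem' := by
        rintro F1 F2 ⟨H1, h1, h1'⟩ ⟨H2, h2, h2'⟩
        refine ⟨H1 + H2, Submodule.add_mem _ h1 h2, ?_⟩
        have := P.add_mem h1' h2'
        convert this using 1
        ring
      zero_mem' := ⟨0, Submodule.zero_mem _, by simp⟩
      smul_mem' := by
        rintro r F1 ⟨H1, h1, h1'⟩
        refine ⟨r • H1, Submodule.smul_mem _ _ h1, ?_⟩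
        have := P.mul_mem_left (C r) h1'
        rw [smul_eq_C_mul, smul_eq_C_mul]
        convert this using 1
        ring }
  have key : F ∈ M := by
    rw [F.as_sum]
    refine Submodule.sum_mem _ fun d hd => ?_
    have hd' := hF (mem_support_iff.mp hd)
    obtain ⟨j, hj⟩ : ∃ j, T ≤ d (Sum.inr j) := by
      by_contra hcon
      push Not at hcon
      rw [weight_wt] at hd'
      have h1 : ∑ j, d (Sum.inr j) = t + 1 := congrArg Prod.snd hd'
      rw [Fin.sum_univ_four] at h1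
      have := hcon 0
      have := hcon 1
      have := hcon 2
      have := hcon 3
      omega
    rw [monomial_erase d _ j T hj]
    set m : S k := monomial (d - Finsupp.single (Sum.inr j) T) (coeff d F) with hm
    have hmm : m ∈ Bi k s (t + 1 - T) := by
      refine isWeightedHomogeneous_monomial _ _ _ ?_
      have h2 : Finsupp.weight wt (d - Finsupp.single (Sum.inr j) T) +
          Finsupp.weight wt (Finsupp.single (Sum.inr j) T) = (s, t + 1) := by
        rw [← map_add, tsub_add_cancel_of_le (Finsupp.single_le_iff.mpr hj)]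
        exact hd'
      have h3 : Finsupp.weight wt (Finsupp.single (Sum.inr j : V) T) = (0, T) := by
        rw [Finsupp.weight_apply, Finsupp.sum_single_index (by simp)]
        simp [wt]
      rw [h3] at h2
      have h4 := congrArg Prod.fst h2
      have h5 := congrArg Prod.snd h2
      simp only [Prod.fst_add, Prod.snd_add, add_zero] at h4 h5
      ext
      · exact h4
      · simp only
        omega
    refine ⟨ix (∏ i ∈ Finset.univ.erase j, c i) * G j * m, ?_, ?_⟩
    · have hprod : (∏ i ∈ Finset.univ.erase j, c i).IsHomogeneous (3 * σ) := by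
        have := IsHomogeneous.prod (Finset.univ.erase j) c (fun _ => σ) (fun i _ => hc i)
        simpa using this
      have h6 := Bi_mul (Bi_mul (ix_mem hprod) (hG j)) hmm
      have h7 : 3 * σ + σ + s = s + 4 * σ := by ring
      have h8 : 0 + (T - 1) + (t + 1 - T) = t := by omega
      rw [h7, h8] at h6
      exact h6
    · have h9 : ix (∏ j, c j) * (X (Sum.inr j) ^ T * m) -
          X (Sum.inr j0) * (ix (∏ i ∈ Finset.univ.erase j, c i) * G j * m) =
          (ix (∏ i ∈ Finset.univ.erase j, c i) * m) *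
            (ix (c j) * X (Sum.inr j) ^ T - X (Sum.inr j0) * G j) := by
        rw [← Finset.mul_prod_erase Finset.univ c (Finset.mem_univ j), map_mul]
        ring
      rw [h9]
      exact P.mul_mem_left _ (hr j)
  exact key

lemma hilb_step (P : Ideal (S k)) [hP : P.IsPrime] (j0 : Fin 4) (cc : A k) (hcc : ix cc ∉ P)
    (s t s' : ℕ)
    (h : ∀ F ∈ Bi k s (t + 1), ∃ H ∈ Bi k s' t, ix cc * F - X (Sum.inr j0) * H ∈ P) :
    hilb k P s (t + 1) ≤ hilb k P s' t := by
  let μ : (S k ⧸ P) →ₗ[k] (S k ⧸ P) := LinearMap.mulLeft k (Ideal.Quotient.mk P (ix cc))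
  let ν : (S k ⧸ P) →ₗ[k] (S k ⧸ P) :=
    LinearMap.mulLeft k (Ideal.Quotient.mk P (X (Sum.inr j0)))
  have hμ : Function.Injective μ := by
    intro a b hab
    have h0 : Ideal.Quotient.mk P (ix cc) ≠ 0 := by
      rwa [Ne, Ideal.Quotient.eq_zero_iff_mem]
    exact mul_left_cancel₀ h0 hab
  have hle : (Im P s (t + 1)).map μ ≤ (Im P s' t).map ν := by
    rintro _ ⟨_, ⟨F, hF, rfl⟩, rfl⟩
    obtain ⟨H, hH, hFH⟩ := h F hF
    refine ⟨_, mem_Im hH, ?_⟩
    have := Ideal.Quotient.eq.mpr hFH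
    rw [map_mul, map_mul] at this
    exact this.symm
  rw [hilb_eq, hilb_eq]
  calc Module.finrank k (Im P s (t + 1)) = Module.finrank k ((Im P s (t + 1)).map μ) :=
        (LinearEquiv.finrank_eq (Submodule.equivMapOfInjective μ hμ _))
    _ ≤ Module.finrank k ((Im P s' t).map ν) := Submodule.finrank_mono hle
    _ ≤ Module.finrank k (Im P s' t) := Submodule.finrank_map_le _ _

lemma hilb_iter (P : Ideal (S k)) (t0 r : ℕ)
    (h : ∀ s t, t0 ≤ t → hilb k P s (t + 1) ≤ hilb k P (s + r) t) (n s : ℕ) :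
    hilb k P s (t0 + n) ≤ hilb k P (s + r * n) t0 := by
  induction n generalizing s with
  | zero => simp
  | succ n ih =>
    calc hilb k P s (t0 + (n + 1)) ≤ hilb k P (s + r) (t0 + n) := h s (t0 + n) (by omega)
      _ ≤ hilb k P (s + r + r * n) t0 := ih (s + r)
      _ = hilb k P (s + r * (n + 1)) t0 := by
        congr 1
        ring

lemma exists_x (P : Ideal (S k)) [hP : P.IsPrime] (hy : ∃ j, (X (Sum.inr j) : S k) ∉ P) {c : ℤ}
    (hc1 : 1 ≤ c) (hc : HasClass k P (c • alpha)) :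
    ∃ (s : ℕ) (f : A k), f.IsHomogeneous s ∧ f ≠ 0 ∧ ix f ∈ P := by
  by_contra hcon
  push Not at hcon
  have hx : ∀ (s : ℕ) (f : A k), f.IsHomogeneous s → ix f ∈ P → f = 0 := by
    intro s f hf hfP
    by_contra h0
    exact hcon s f hf h0 hfP
  obtain ⟨j0, hj0⟩ := hy
  obtain ⟨N, C0, h0⟩ := hc
  set C := |C0| with hC
  have hC0 : 0 ≤ C := abs_nonneg _
  have h : ∀ s t : ℕ, N ≤ s → N ≤ t →
      |(hilb k P s t : ℝ) - c * s * t ^ 2 / 2| ≤ C * ((s : ℝ) + t) ^ 2 := by
    intro s t hs ht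
    have h1 := h0 s t hs ht
    rw [lead_eq] at h1
    have e0 : (c • alpha) 0 = 0 := by simp [alpha]
    have e1 : (c • alpha) 1 = c := by simp [alpha]
    have e2 : (c • alpha) 2 = 0 := by simp [alpha]
    have e3 : (c • alpha) 3 = 0 := by simp [alpha]
    rw [e0, e1, e2, e3] at h1
    have h2 : C0 * ((s : ℝ) + t) ^ 2 ≤ C * ((s : ℝ) + t) ^ 2 :=
      mul_le_mul_of_nonneg_right (le_abs_self _) (by positivity)
    refine le_trans (le_of_eq ?_) (h1.trans h2)
    congr 1
    push_cast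
    ring
  have hcR : (1 : ℝ) ≤ c := by exact_mod_cast hc1
  obtain ⟨T0, hT0⟩ := exists_nat_ge (8 * C + 2)
  set T := max T0 (max N 1) with hTdef
  have hTN : N ≤ T := le_trans (le_max_left _ _) (le_max_right _ _)
  have hT1 : 1 ≤ T := le_trans (le_max_right _ _) (le_max_right _ _)
  have hTC : 8 * C + 2 ≤ T := hT0.trans (by exact_mod_cast le_max_left _ _)
  obtain ⟨σ0, hσ0⟩ := exists_nat_gt ((c : ℝ) * T ^ 2 / 2)
  set σ := max σ0 T with hσdef
  have hσT : T ≤ σ := le_max_right _ _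
  have hσc : (c : ℝ) * T ^ 2 / 2 < σ := hσ0.trans_le (by exact_mod_cast le_max_left _ _)
  have hlt : hilb k P σ T < (T + 1) * (σ + 2).choose 2 := by
    have h1 := (abs_le.mp (h σ T (hTN.trans hσT) hTN)).2
    have h2 : (hilb k P σ T : ℝ) < ((T + 1) * (σ + 2).choose 2 : ℕ) := by
      rw [Nat.cast_mul, ch2]
      push_cast
      have hσT' : (T : ℝ) ≤ σ := by exact_mod_cast hσT
      have hT1' : (1 : ℝ) ≤ T := by exact_mod_cast hT1
      have hσ1 : (1 : ℝ) ≤ σ := hT1'.trans hσT'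
      have h3 : C * ((σ : ℝ) + T) ^ 2 ≤ C * (4 * σ ^ 2) := by
        apply mul_le_mul_of_nonneg_left _ hC0
        nlinarith
      have h4 : (c : ℝ) * σ * T ^ 2 / 2 < σ * σ := by
        nlinarith
      have h5 : (T + 1 : ℝ) * (((σ : ℝ) + 2) * (σ + 1) / 2) ≥ (T + 1) * (σ ^ 2 / 2) := by
        apply mul_le_mul_of_nonneg_left _ (by positivity)
        nlinarith
      have h6 : (T + 1 : ℝ) * (σ ^ 2 / 2) ≥ (8 * C + 2) * (σ ^ 2 / 2) := by
        apply mul_le_mul_of_nonneg_right _ (by positivity)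
        linarith
      nlinarith
    exact_mod_cast h2
  choose cj G hcj hcj0 hG hrel using rel_exists P j0 hj0 hx σ T hT1 hlt
  have hprod : (∏ j, cj j).IsHomogeneous (4 * σ) := by
    have := IsHomogeneous.prod Finset.univ cj (fun _ => σ) (fun i _ => hcj i)
    simpa using this
  have hprod0 : (∏ j, cj j) ≠ 0 := Finset.prod_ne_zero_iff.mpr fun j _ => hcj0 j
  have hnotP : ix (∏ j, cj j) ∉ P := fun hmem => hprod0 (hx _ _ hprod hmem)
  have hstep : ∀ s t, 4 * T ≤ t → hilb k P s (t + 1) ≤ hilb k P (s + 4 * σ) t := by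
    intro s t ht
    exact hilb_step P j0 _ hnotP s t (s + 4 * σ) fun F hF =>
      push_down P j0 σ T hT1 cj G hcj hG hrel s t (by omega) F hF
  set D : ℝ := (((4 * T + 3).choose 3 : ℕ) : ℝ) with hD
  have hD0 : 0 ≤ D := Nat.cast_nonneg _
  have hub : ∀ n : ℕ, 4 * T ≤ n → (hilb k P n n : ℝ) ≤ (4 * σ + 3) ^ 2 * D * n ^ 2 := by
    intro n hn
    obtain ⟨m, rfl⟩ : ∃ m, n = 4 * T + m := ⟨n - 4 * T, by omega⟩
    have h1 := hilb_iter P (4 * T) (4 * σ) hstep m (4 * T + m)
    have h2 := h1.trans (hilb_le P _ _)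
    have h3 : (hilb k P (4 * T + m) (4 * T + m) : ℝ) ≤
        ((4 * T + m + 4 * σ * m + 2).choose 2 * (4 * T + 3).choose 3 : ℕ) := by
      exact_mod_cast h2
    rw [Nat.cast_mul, ch2] at h3
    refine h3.trans ?_
    rw [← hD]
    push_cast
    set x : ℝ := 4 * (T : ℝ) + m with hx'
    have hT1' : (1 : ℝ) ≤ T := by exact_mod_cast hT1
    have hm0 : (0 : ℝ) ≤ m := Nat.cast_nonneg _
    have hx1 : 1 ≤ x := by rw [hx']; linarith
    have hmx : (m : ℝ) ≤ x := by rw [hx']; linarith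
    have hσ0' : (0 : ℝ) ≤ σ := Nat.cast_nonneg _
    have h4 : x + 4 * σ * m + 2 ≤ (4 * σ + 3) * x := by nlinarith
    have h5 : x + 4 * σ * m + 1 ≤ (4 * σ + 3) * x := by nlinarith
    have h6 : 0 ≤ x + 4 * σ * m + 1 := by positivity
    have h7 : (x + 4 * σ * m + 2) * (x + 4 * σ * m + 1) / 2 ≤ (4 * σ + 3) ^ 2 * x ^ 2 := by
      have h8 : (x + 4 * σ * m + 2) * (x + 4 * σ * m + 1) ≤
          ((4 * σ + 3) * x) * ((4 * σ + 3) * x) :=
        mul_le_mul h4 h5 h6 (by positivity)
      nlinarith [mul_self_nonneg ((4 * (σ : ℝ) + 3) * x)]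
    calc (x + 4 * σ * m + 2) * (x + 4 * σ * m + 1) / 2 * D ≤
        ((4 * σ + 3) ^ 2 * x ^ 2) * D := mul_le_mul_of_nonneg_right h7 hD0
      _ = (4 * σ + 3) ^ 2 * D * x ^ 2 := by ring
  have hfin : ∀ᶠ n : ℕ in atTop, ((c : ℝ) / 2) * (n : ℝ) ^ (2 + 1) ≤
      ((4 * σ + 3) ^ 2 * D + 4 * C) * (n : ℝ) ^ 2 := by
    filter_upwards [eventually_ge_atTop N, eventually_ge_atTop (4 * T)] with n hn hn4
    have h1 := (abs_le.mp (h n n hn hn)).1
    have h2 := hub n hn4
    nlinarith
  have := pow_le 2 hfin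
  linarith

end IitElim

section IitFactor

variable {k : Type*} [Field k]

lemma top_mul {n d a b : ℕ} {f g h : MvPolynomial (Fin n) k} (hf : f.IsHomogeneous d)
    (hfg : f = g * h) (ha : g.totalDegree = a) (hb : h.totalDegree = b) (hd : a + b = d) :
    f = homogeneousComponent a g * homogeneousComponent b h := by
  have h1 : f = homogeneousComponent d f := by
    have := homogeneousComponent_of_mem (m := d) hf
    rw [if_pos rfl] at this
    exact this.symm
  have h2 : h = ∑ j ∈ Finset.range (b + 1), homogeneousComponent j h := by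
    rw [← hb]
    exact (sum_homogeneousComponent h).symm
  rw [h1, hfg]
  conv_lhs => rw [h2]
  rw [Finset.mul_sum, map_sum]
  rw [Finset.sum_eq_single b]
  · rw [comp_mul g _ (homogeneousComponent_isHomogeneous b h), if_pos (by omega)]
    rw [show d - b = a by omega]
  · intro j hj hjb
    rw [Finset.mem_range] at hj
    rw [comp_mul g _ (homogeneousComponent_isHomogeneous j h), if_pos (by omega)]
    rw [homogeneousComponent_eq_zero _ _ (by omega), zero_mul]
  · intro hb'
    exact absurd (Finset.mem_range.mpr (by omega)) hb'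

lemma factor {n : ℕ} (d : ℕ) : ∀ f : MvPolynomial (Fin n) k, f.IsHomogeneous d → f ≠ 0 →
    ∃ l : List (MvPolynomial (Fin n) k × ℕ),
      (∀ p ∈ l, Irreducible p.1 ∧ p.1.IsHomogeneous p.2) ∧
      (∃ c : k, c ≠ 0 ∧ f = C c * (l.map Prod.fst).prod) ∧ (l.map Prod.snd).sum = d := by
  induction d using Nat.strong_induction_on with
  | _ d ih =>
    intro f hf hf0
    by_cases hirr : Irreducible f
    · exact ⟨[(f, d)], by simp [hirr, hf], ⟨1, one_ne_zero, by simp⟩, by simp⟩
    · by_cases hu : IsUnit f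
      · obtain ⟨c, hc, rfl⟩ := MvPolynomial.isUnit_iff_eq_C_of_isReduced.mp hu
        have hd : d = 0 := by
          have := hf.totalDegree hf0
          rw [totalDegree_C] at this
          exact this.symm
        exact ⟨[], by simp, ⟨c, hc.ne_zero, by simp⟩, by simp [hd]⟩
      · rw [irreducible_iff] at hirr
        push Not at hirr
        obtain ⟨g, h, hgh, hg, hh⟩ := hirr hu
        have hg0 : g ≠ 0 := fun h0 => hf0 (by rw [hgh, h0, zero_mul])
        have hh0 : h ≠ 0 := fun h0 => hf0 (by rw [hgh, h0, mul_zero])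
        have hdeg : g.totalDegree + h.totalDegree = d := by
          rw [← totalDegree_mul_of_isDomain hg0 hh0, ← hgh]
          exact hf.totalDegree hf0
        have hpos : ∀ p : MvPolynomial (Fin n) k, p ≠ 0 → ¬ IsUnit p → 1 ≤ p.totalDegree := by
          intro p hp0 hpu
          by_contra hcon
          have h0 : p.totalDegree = 0 := by omega
          rw [totalDegree_eq_zero_iff_eq_C] at h0
          apply hpu
          rw [h0]
          have : coeff 0 p ≠ 0 := by
            intro h1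
            rw [h1, C_0] at h0
            exact hp0 h0
          exact (isUnit_iff_ne_zero.mpr this).map C
        have hg1 := hpos g hg0 hg
        have hh1 := hpos h hh0 hh
        have htop := top_mul hf hgh rfl rfl hdeg
        have hg2 : homogeneousComponent g.totalDegree g ≠ 0 := by
          intro h0
          rw [h0, zero_mul] at htop
          exact hf0 htop
        have hh2 : homogeneousComponent h.totalDegree h ≠ 0 := by
          intro h0
          rw [h0, mul_zero] at htop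
          exact hf0 htop
        obtain ⟨l1, hl1, ⟨c1, hc1, he1⟩, hs1⟩ := ih g.totalDegree (by omega) _
          (homogeneousComponent_isHomogeneous _ g) hg2
        obtain ⟨l2, hl2, ⟨c2, hc2, he2⟩, hs2⟩ := ih h.totalDegree (by omega) _
          (homogeneousComponent_isHomogeneous _ h) hh2
        refine ⟨l1 ++ l2, ?_, ⟨c1 * c2, mul_ne_zero hc1 hc2, ?_⟩, ?_⟩
        · intro p hp
          rcases List.mem_append.mp hp with h1 | h1
          · exact hl1 p h1
          · exact hl2 p h1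
        · rw [htop, List.map_append, List.prod_append, map_mul]
          conv_lhs => rw [he1, he2]
          ring
        · rw [List.map_append, List.sum_append, hs1, hs2, hdeg]

/-- a prime containing a product of forms contains one of them -/
lemma exists_factor_mem {n : ℕ} {R : Type*} [CommRing R] [Algebra k R]
    (θ : MvPolynomial (Fin n) k →ₐ[k] R) (P : Ideal R) [hP : P.IsPrime] {d : ℕ}
    {f : MvPolynomial (Fin n) k} (hf : f.IsHomogeneous d) (hf0 : f ≠ 0) (hfP : θ f ∈ P) :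
    ∃ (p : MvPolynomial (Fin n) k) (e : ℕ), Irreducible p ∧ p.IsHomogeneous e ∧ θ p ∈ P := by
  obtain ⟨l, hl, ⟨c, hc, he⟩, _⟩ := factor d f hf hf0
  rw [he, map_mul] at hfP
  rcases hP.mem_or_mem hfP with h1 | h1
  · exfalso
    apply hP.ne_top
    refine Ideal.eq_top_of_isUnit_mem _ h1 ?_
    exact ((isUnit_iff_ne_zero.mpr hc).map C).map θ
  · rw [map_list_prod] at h1
    obtain ⟨q, hq, hqP⟩ := (hP.multiset_prod_mem_iff_exists_mem
      ((List.map θ (l.map Prod.fst) : List R) : Multiset R)).mp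
        (by rw [Multiset.prod_coe]; exact h1)
    rw [Multiset.mem_coe, List.map_map, List.mem_map] at hq
    obtain ⟨p, hp, rfl⟩ := hq
    exact ⟨p.1, p.2, (hl p hp).1, (hl p hp).2, hqP⟩

end IitFactor

section IitEq

variable {k : Type*} [Field k]

section grad

attribute [local instance] MvPolynomial.weightedGradedAlgebra

lemma Jfg_hom {f : A k} {g : B k} {a b : ℕ} (hf : f.IsHomogeneous a) (hg : g.IsHomogeneous b) :
    (Jfg f g).IsHomogeneous (weightedHomogeneousSubmodule k wt) := by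
  unfold Jfg
  refine Ideal.homogeneous_span _ _ ?_
  rintro x hx
  rcases hx with rfl | hx
  · exact ⟨(a, 0), ix_mem hf⟩
  · rw [Set.mem_singleton_iff] at hx
    subst hx
    exact ⟨(0, b), iy_mem hg⟩

lemma Jfg_comp {f : A k} {g : B k} {a b : ℕ} (hf : f.IsHomogeneous a) (hg : g.IsHomogeneous b)
    (F : S k) (hF : F ∈ Jfg f g) (d : ℕ × ℕ) : weightedHomogeneousComponent wt d F ∈ Jfg f g :=
  weightedHomogeneousComponent_mem_of_mem k wt (Jfg_hom hf hg) hF d

lemma Jfg_of_comp {f : A k} {g : B k} {a b : ℕ} (hf : f.IsHomogeneous a) (hg : g.IsHomogeneous b)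
    (F : S k) (hF : ∀ d : ℕ × ℕ, weightedHomogeneousComponent wt d F ∈ Jfg f g) : F ∈ Jfg f g :=
  (mem_iff_weightedHomogeneousComponent_mem k wt (Jfg_hom hf hg) F).mpr hF

end grad

lemma hilb_drop (J P : Ideal (S k)) (hJ : J.IsPrime) (hJP : J ≤ P) {u v : ℕ} (F : S k)
    (hF : F ∈ Bi k u v) (hFP : F ∈ P) (hFJ : F ∉ J) (s t : ℕ) :
    hilb k P (s + u) (t + v) + hilb k J s t ≤ hilb k J (s + u) (t + v) := by
  let q : (S k ⧸ J) →ₗ[k] (S k ⧸ P) := (Ideal.Quotient.factorₐ k hJP).toLinearMap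
  have hq : ∀ x, q (Ideal.Quotient.mk J x) = Ideal.Quotient.mk P x := fun _ => rfl
  let μ : (S k ⧸ J) →ₗ[k] (S k ⧸ J) := LinearMap.mulLeft k (Ideal.Quotient.mk J F)
  have hμ : Function.Injective μ := by
    intro x y hxy
    have h0 : Ideal.Quotient.mk J F ≠ 0 := by
      rwa [Ne, Ideal.Quotient.eq_zero_iff_mem]
    exact mul_left_cancel₀ h0 hxy
  have h1 := LinearMap.finrank_range_add_finrank_ker (q.domRestrict (Im J (s + u) (t + v)))
  rw [LinearMap.range_domRestrict] at h1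
  have h2 : (Im J (s + u) (t + v)).map q = Im P (s + u) (t + v) := by
    rw [← Submodule.map_comp]
    rfl
  rw [h2] at h1
  have h3 : Module.finrank k (Im J s t) ≤
      Module.finrank k (LinearMap.ker (q.domRestrict (Im J (s + u) (t + v)))) := by
    have hmem : ∀ x : Im J s t, μ x.1 ∈ Im J (s + u) (t + v) := by
      rintro ⟨_, ⟨G, hG, rfl⟩⟩
      have := mem_Im (P := J) (Bi_mul hF hG)
      rw [Nat.add_comm u s, Nat.add_comm v t, map_mul] at this
      exact this
    let ι : Im J s t →ₗ[k] LinearMap.ker (q.domRestrict (Im J (s + u) (t + v))) :=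
      LinearMap.codRestrict _ (LinearMap.codRestrict (Im J (s + u) (t + v))
        (μ ∘ₗ (Im J s t).subtype) hmem) (by
          rintro ⟨_, ⟨G, hG, rfl⟩⟩
          rw [LinearMap.mem_ker]
          change q (Ideal.Quotient.mk J F * Ideal.Quotient.mk J G) = 0
          rw [← map_mul, hq, Ideal.Quotient.eq_zero_iff_mem]
          exact P.mul_mem_right _ hFP)
    have hι : Function.Injective ι := by
      intro x y hxy
      have h4 := congrArg (fun z => (z.1.1 : S k ⧸ J)) hxy
      exact Subtype.ext (hμ h4)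
    exact LinearMap.finrank_le_finrank_of_injective hι
  rw [hilb_eq, hilb_eq, hilb_eq]
  have h5 : Module.finrank k ((Bi k (s + u) (t + v)).map (Ideal.Quotient.mkₐ k P).toLinearMap) +
      Module.finrank k (LinearMap.ker (q.domRestrict (Im J (s + u) (t + v)))) =
      Module.finrank k ((Bi k (s + u) (t + v)).map (Ideal.Quotient.mkₐ k J).toLinearMap) := h1
  have h6 : Module.finrank k ((Bi k s t).map (Ideal.Quotient.mkₐ k J).toLinearMap) ≤
      Module.finrank k (LinearMap.ker (q.domRestrict (Im J (s + u) (t + v)))) := h3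
  omega

lemma class_real {P : Ideal (S k)} {c : ℤ} (hc : HasClass k P (c • alpha)) :
    ∃ (N : ℕ) (C : ℝ), 0 ≤ C ∧ ∀ s t : ℕ, N ≤ s → N ≤ t →
      |(hilb k P s t : ℝ) - c * s * t ^ 2 / 2| ≤ C * ((s : ℝ) + t) ^ 2 := by
  obtain ⟨N, C0, h0⟩ := hc
  refine ⟨N, |C0|, abs_nonneg _, ?_⟩
  intro s t hs ht
  have h1 := h0 s t hs ht
  rw [lead_eq] at h1
  have e0 : (c • alpha) 0 = 0 := by simp [alpha]
  have e1 : (c • alpha) 1 = c := by simp [alpha]
  have e2 : (c • alpha) 2 = 0 := by simp [alpha]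
  have e3 : (c • alpha) 3 = 0 := by simp [alpha]
  rw [e0, e1, e2, e3] at h1
  have h2 : C0 * ((s : ℝ) + t) ^ 2 ≤ |C0| * ((s : ℝ) + t) ^ 2 :=
    mul_le_mul_of_nonneg_right (le_abs_self _) (by positivity)
  refine le_trans (le_of_eq ?_) (h1.trans h2)
  congr 1
  push_cast
  ring

lemma class_unique {P : Ideal (S k)} {c c' : ℤ} (hc : HasClass k P (c • alpha))
    (hc' : HasClass k P (c' • alpha)) : c ≤ c' := by
  obtain ⟨N, C, hC, h⟩ := class_real hc
  obtain ⟨N', C', hC', h'⟩ := class_real hc'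
  have h2 : ∀ᶠ n : ℕ in atTop, (((c : ℝ) - c') / 2) * (n : ℝ) ^ (2 + 1) ≤
      (4 * C + 4 * C') * (n : ℝ) ^ 2 := by
    filter_upwards [eventually_ge_atTop N, eventually_ge_atTop N'] with n hn hn'
    have h1 := (abs_le.mp (h n n hn hn)).1
    have h3 := (abs_le.mp (h' n n hn' hn')).2
    nlinarith
  have h3 := pow_le 2 h2
  have : (c : ℝ) ≤ c' := by linarith
  exact_mod_cast this

lemma eq_Jfg [IsAlgClosed k] (P : Ideal (S k))
    (hbi : ∀ F ∈ P, ∀ d : ℕ × ℕ, weightedHomogeneousComponent wt d F ∈ P) {c : ℤ} (hc1 : 1 ≤ c)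
    (hc : HasClass k P (c • alpha)) {f : A k} {g : B k} {a b : ℕ} (hf : f.IsHomogeneous a)
    (hg : g.IsHomogeneous b) (hfi : Irreducible f) (hgi : Irreducible g)
    (hfP : ix f ∈ P) (hgP : iy g ∈ P) : P = Jfg f g ∧ c = (a * b : ℕ) := by
  have hJ : (Jfg f g).IsPrime := Jfg_prime hfi.prime hgi.prime
  have hJP : Jfg f g ≤ P := by
    unfold Jfg
    rw [Ideal.span_le]
    rintro x hx
    rcases hx with rfl | hx
    · exact hfP
    · rw [Set.mem_singleton_iff] at hx
      subst hx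
      exact hgP
  have hcJ : HasClass k (Jfg f g) (((a * b : ℕ) : ℤ) • alpha) := by
    have := class_Jfg hf hg hfi.ne_zero hgi.ne_zero
    simpa using this
  have hPJ : P = Jfg f g := by
    by_contra hne
    obtain ⟨F0, hF0P, hF0J⟩ : ∃ F ∈ P, F ∉ Jfg f g := by
      by_contra hcon
      push Not at hcon
      exact hne (le_antisymm hcon hJP)
    obtain ⟨d, hd⟩ : ∃ d : ℕ × ℕ, weightedHomogeneousComponent wt d F0 ∉ Jfg f g := by
      by_contra hcon
      push Not at hcon
      exact hF0J (Jfg_of_comp hf hg F0 hcon)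
    obtain ⟨u, v⟩ := d
    set F := weightedHomogeneousComponent wt (u, v) F0 with hF
    have hFB : F ∈ Bi k u v := weightedHomogeneousComponent_mem wt F0 (u, v)
    have hdrop := hilb_drop (Jfg f g) P hJ hJP F hFB (hbi F0 hF0P (u, v)) hd
    obtain ⟨N, C, hC, h⟩ := class_real hc
    obtain ⟨N', C', hC', h'⟩ := class_real hcJ
    set m : ℝ := (((a * b : ℕ) : ℤ) : ℝ) with hm
    have hm0 : 0 ≤ m := by
      rw [hm]
      positivity
    have h2 : ∀ᶠ n : ℕ in atTop, ((c : ℝ) / 2) * (n : ℝ) ^ (2 + 1) ≤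
        (m * ((u : ℝ) + 2 * v + v ^ 2 + 2 * u * v + u * v ^ 2) / 2 +
          (C + C') * (2 + u + v) ^ 2 + 4 * C') * (n : ℝ) ^ 2 := by
      filter_upwards [eventually_ge_atTop N, eventually_ge_atTop N', eventually_ge_atTop 1]
        with n hn hn' hn1
      have h1 := (abs_le.mp (h (n + u) (n + v) (by omega) (by omega))).1
      have h3 := (abs_le.mp (h' (n + u) (n + v) (by omega) (by omega))).2
      have h4 := (abs_le.mp (h' n n hn' hn')).1
      have h5 : (hilb k P (n + u) (n + v) : ℝ) + hilb k (Jfg f g) n n ≤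
          hilb k (Jfg f g) (n + u) (n + v) := by exact_mod_cast hdrop n n
      have hn1' : (1 : ℝ) ≤ n := by exact_mod_cast hn1
      have hu0 : (0 : ℝ) ≤ u := Nat.cast_nonneg _
      have hv0 : (0 : ℝ) ≤ v := Nat.cast_nonneg _
      have hcR : (1 : ℝ) ≤ c := by exact_mod_cast hc1
      push_cast at h1 h3
      have h6 : ((n : ℝ) + u + (n + v)) ^ 2 ≤ (2 + u + v) ^ 2 * n ^ 2 := by
        rw [← mul_pow]
        apply pow_le_pow_left₀ (by positivity)
        nlinarith
      have h7 : (n : ℝ) ^ 3 ≤ ((n : ℝ) + u) * ((n : ℝ) + v) ^ 2 := by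
        have : (n : ℝ) ^ 2 ≤ (n + v) ^ 2 := pow_le_pow_left₀ (by positivity) (by linarith) 2
        calc (n : ℝ) ^ 3 = (n : ℝ) * (n : ℝ) ^ 2 := by ring
          _ ≤ ((n : ℝ) + u) * ((n : ℝ) + v) ^ 2 := mul_le_mul (by linarith) this (by positivity)
              (by positivity)
      have h8 : ((n : ℝ) + u) * (n + v) ^ 2 - n ^ 3 ≤
          ((u : ℝ) + 2 * v + v ^ 2 + 2 * u * v + u * v ^ 2) * n ^ 2 := by
        have e1 : ((n : ℝ) + u) * (n + v) ^ 2 - n ^ 3 =
            ((u : ℝ) + 2 * v) * n ^ 2 + (v ^ 2 + 2 * u * v) * n + u * v ^ 2 := by ring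
        have e2 : ((v : ℝ) ^ 2 + 2 * u * v) * n ≤ (v ^ 2 + 2 * u * v) * n ^ 2 := by
          apply mul_le_mul_of_nonneg_left _ (by positivity)
          nlinarith
        have e3 : (u : ℝ) * v ^ 2 ≤ (u * v ^ 2) * n ^ 2 := by
          calc (u : ℝ) * v ^ 2 = u * v ^ 2 * 1 := by ring
            _ ≤ _ := mul_le_mul_of_nonneg_left (by nlinarith) (by positivity)
        rw [e1]
        linarith
      have h9 : (C + C') * ((n : ℝ) + u + (n + v)) ^ 2 ≤ (C + C') * ((2 + u + v) ^ 2 * n ^ 2) :=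
        mul_le_mul_of_nonneg_left h6 (by linarith)
      have h10 : m * (((n : ℝ) + u) * (n + v) ^ 2 - n ^ 3) ≤
          m * (((u : ℝ) + 2 * v + v ^ 2 + 2 * u * v + u * v ^ 2) * n ^ 2) :=
        mul_le_mul_of_nonneg_left h8 hm0
      have h11 : (c : ℝ) * n ^ 3 ≤ c * ((n + u) * (n + v) ^ 2) :=
        mul_le_mul_of_nonneg_left h7 (by linarith)
      generalize (hilb k P (n + u) (n + v) : ℝ) = HP at h1 h5
      generalize (hilb k (Jfg f g) (n + u) (n + v) : ℝ) = HJ at h3 h5
      generalize (hilb k (Jfg f g) n n : ℝ) = HJ0 at h4 h5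
      clear h6 h7 h8 h h' hn hn' hdrop
      linarith
    have h3 := pow_le 2 h2
    have hcR : (1 : ℝ) ≤ c := by exact_mod_cast hc1
    linarith
  refine ⟨hPJ, ?_⟩
  rw [← hPJ] at hcJ
  exact le_antisymm (class_unique hc hcJ) (class_unique hcJ hc)

end IitEq

section IitInterp

variable {k : Type*} [Field k]

lemma exists_det_ne_zero {D : ℕ} {Ω : Type*} (v : Fin D → Ω → k) (hv : LinearIndependent k v) :
    ∃ ω : Fin D → Ω, (Matrix.of fun i j => v i (ω j)).det ≠ 0 := by
  classical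
  let ev : Ω → (Fin D → k) := fun ω i => v i ω
  have hspan : Submodule.span k (Set.range ev) = ⊤ := by
    by_contra hne
    obtain ⟨φ, hφ0, hφ⟩ := Submodule.exists_le_ker_of_lt_top _ (lt_top_iff_ne_top.mpr hne)
    apply hφ0
    have h1 : ∑ i, φ (Pi.single i 1) • v i = 0 := by
      ext ω
      have h2 : φ (ev ω) = 0 := hφ (Submodule.subset_span ⟨ω, rfl⟩)
      have h3 : ev ω = ∑ i, (v i ω) • (Pi.single i (1 : k) : Fin D → k) := by
        ext j
        simp [ev, Pi.single_apply]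
      rw [h3, map_sum] at h2
      simp only [map_smul, smul_eq_mul] at h2
      simp only [Finset.sum_apply, Pi.smul_apply, smul_eq_mul, Pi.zero_apply]
      rw [← h2]
      exact Finset.sum_congr rfl fun i _ => mul_comm _ _
    have h4 := Fintype.linearIndependent_iff.mp hv _ h1
    apply LinearMap.pi_ext'
    intro i
    ext
    simpa using h4 i
  obtain ⟨f, hf, hfs, hfl⟩ := Submodule.exists_fun_fin_finrank_span_eq k (Set.range ev)
  have hD : Module.finrank k (Submodule.span k (Set.range ev)) = D := by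
    rw [hspan, finrank_top, Module.finrank_fin_fun]
  have hf' : ∀ i, ∃ ω, ev ω = f i := hf
  choose ω hω using hf'
  refine ⟨fun j => ω (Fin.cast hD.symm j), ?_⟩
  have hli : LinearIndependent k (fun j : Fin D => ev (ω (Fin.cast hD.symm j))) := by
    have h5 : (fun j : Fin D => ev (ω (Fin.cast hD.symm j))) = f ∘ Fin.cast hD.symm := by
      ext j
      simp [hω]
    rw [h5]
    exact hfl.comp _ (Fin.cast_injective _)
  have h6 : IsUnit (Matrix.of fun j i => v i (ω (Fin.cast hD.symm j))) := by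
    rw [← Matrix.linearIndependent_rows_iff_isUnit]
    exact hli
  have h7 : (Matrix.of fun i j => v i (ω (Fin.cast hD.symm j))) =
      (Matrix.of fun j i => v i (ω (Fin.cast hD.symm j))).transpose := rfl
  rw [h7, Matrix.det_transpose]
  exact ((Matrix.isUnit_iff_isUnit_det _).mp h6).ne_zero

lemma exists_poly [Infinite k] {τ ι : Type} [Fintype ι] (W : Submodule k (MvPolynomial τ k))
    [FiniteDimensional k W] (hW : Module.finrank k W ≤ Fintype.card ι) :
    ∃ Ψ : MvPolynomial (ι × τ) k, Ψ ≠ 0 ∧ ∀ p : ι → τ → k,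
      eval (fun q : ι × τ => p q.1 q.2) Ψ ≠ 0 → ∀ F ∈ W, (∀ i, eval (p i) F = 0) → F = 0 := by
  classical
  set D := Module.finrank k W with hD
  let w := Module.finBasis k W
  obtain ⟨emb⟩ : Nonempty (Fin D ↪ ι) := by
    rw [Function.Embedding.nonempty_iff_card_le]
    simpa using hW
  let M : Matrix (Fin D) (Fin D) (MvPolynomial (ι × τ) k) :=
    Matrix.of fun i j => rename (fun s => (emb j, s)) (w i : MvPolynomial τ k)
  have hev : ∀ p : ι → τ → k, eval (fun q : ι × τ => p q.1 q.2) M.det =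
      (Matrix.of fun i j => eval (p (emb j)) (w i : MvPolynomial τ k)).det := by
    intro p
    rw [RingHom.map_det]
    congr 1
    ext i j
    simp only [M, RingHom.mapMatrix_apply, Matrix.map_apply, Matrix.of_apply, eval_rename]
    rfl
  refine ⟨M.det, ?_, ?_⟩
  · have hli : LinearIndependent k
        (fun (i : Fin D) (ω : τ → k) => eval ω (w i : MvPolynomial τ k)) := by
      rw [Fintype.linearIndependent_iff]
      intro c hc
      have h1 : ∑ i, c i • (w i : MvPolynomial τ k) = 0 := by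
        apply MvPolynomial.funext
        intro x
        have h2 := congrFun hc x
        simp only [Finset.sum_apply, Pi.smul_apply, smul_eq_mul, Pi.zero_apply] at h2
        rw [map_sum, map_zero, ← h2]
        exact Finset.sum_congr rfl fun i _ => by rw [smul_eval]
      have h3 : ∑ i, c i • w i = 0 := by
        apply Subtype.ext
        rw [Submodule.coe_sum]
        simpa using h1
      exact Fintype.linearIndependent_iff.mp w.linearIndependent c h3
    obtain ⟨ω, hω⟩ := exists_det_ne_zero _ hli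
    intro h0
    apply hω
    have h1 := hev (fun i => if h : ∃ j, emb j = i then ω h.choose else 0)
    rw [h0, map_zero] at h1
    rw [h1]
    congr 1
    ext i j
    simp only [Matrix.of_apply]
    have h2 : ∃ j', emb j' = emb j := ⟨j, rfl⟩
    rw [dif_pos h2]
    rw [emb.injective h2.choose_spec]
  · intro p hp F hF hFp
    rw [hev] at hp
    set N : Matrix (Fin D) (Fin D) k :=
      Matrix.of fun i j => eval (p (emb j)) (w i : MvPolynomial τ k) with hN
    let c := w.repr ⟨F, hF⟩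
    have hFc : F = ∑ i, c i • (w i : MvPolynomial τ k) := by
      have := congrArg Subtype.val (w.sum_repr ⟨F, hF⟩)
      rw [Submodule.coe_sum] at this
      simpa using this.symm
    have h1 : Matrix.vecMul (fun i => c i) N = 0 := by
      ext j
      simp only [Matrix.vecMul, dotProduct, hN, Matrix.of_apply, Pi.zero_apply]
      rw [← hFp (emb j)]
      conv_rhs => rw [hFc]
      rw [map_sum]
      exact Finset.sum_congr rfl fun i _ => by rw [smul_eval]
    have h2 := Matrix.eq_zero_of_vecMul_eq_zero hp h1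
    rw [hFc]
    refine Finset.sum_eq_zero fun i _ => ?_
    rw [congrFun h2 i]
    simp

lemma exists_poly' [Infinite k] {n b : ℕ} (em : Fin n → V) (hem : Function.Injective em)
    (W : Submodule k (MvPolynomial (Fin n) k)) [FiniteDimensional k W] (I : Finset (Fin b))
    (hW : Module.finrank k W ≤ I.card) :
    ∃ Ψ : MvPolynomial (Fin b × V) k, Ψ ≠ 0 ∧ ∀ p : Fin b → V → k,
      eval (fun q : Fin b × V => p q.1 q.2) Ψ ≠ 0 →
        ∀ F ∈ W, (∀ i ∈ I, eval (fun s => p i (em s)) F = 0) → F = 0 := by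
  obtain ⟨Ψ, h0, h1⟩ := exists_poly (ι := {i // i ∈ I}) W (by simpa using hW)
  have hinj : Function.Injective
      (fun q : {i // i ∈ I} × Fin n => ((q.1.1, em q.2) : Fin b × V)) := by
    rintro ⟨⟨a, ha⟩, s⟩ ⟨⟨a', ha'⟩, s'⟩ h
    simp only [Prod.mk.injEq] at h
    obtain ⟨rfl, h2⟩ := h
    rw [hem h2]
  refine ⟨rename (fun q => (q.1.1, em q.2)) Ψ, ?_, ?_⟩
  · intro h
    exact h0 (rename_injective _ hinj (by rw [h, map_zero]))
  · intro p hp F hF hFI
    rw [eval_rename] at hp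
    exact h1 (fun i s => p i.1 (em s)) hp F hF fun i => hFI i.1 i.2

lemma exists_points [Infinite k] {b : ℕ} (Φ : MvPolynomial (Fin b × V) k) (hΦ : Φ ≠ 0) :
    ∃ p : Fin b → V → k, eval (fun q : Fin b × V => p q.1 q.2) Φ ≠ 0 ∧
      (∀ i, (∃ s, p i (Sum.inl s) ≠ 0) ∧ ∃ s, p i (Sum.inr s) ≠ 0) ∧
      (∀ (I : Finset (Fin b)) (a : ℕ), (a + 2).choose 2 ≤ I.card → ∀ F : A k, F.IsHomogeneous a →
        (∀ i ∈ I, eval (fun s => p i (Sum.inl s)) F = 0) → F = 0) ∧
      (∀ (I : Finset (Fin b)) (a : ℕ), (a + 3).choose 3 ≤ I.card → ∀ F : B k, F.IsHomogeneous a →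
        (∀ i ∈ I, eval (fun s => p i (Sum.inr s)) F = 0) → F = 0) := by
  classical
  have hX : ∀ (I : Finset (Fin b)) (a : ℕ), ∃ Ψ : MvPolynomial (Fin b × V) k, Ψ ≠ 0 ∧
      ((a + 2).choose 2 ≤ I.card → ∀ p : Fin b → V → k,
        eval (fun q : Fin b × V => p q.1 q.2) Ψ ≠ 0 →
          ∀ F ∈ HA (k := k) a, (∀ i ∈ I, eval (fun s => p i (Sum.inl s)) F = 0) → F = 0) := by
    intro I a
    by_cases h : (a + 2).choose 2 ≤ I.card
    · obtain ⟨Ψ, h1, h2⟩ := exists_poly' (k := k) Sum.inl Sum.inl_injective (HA a) I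
        (by rw [finrank_HA]; exact h)
      exact ⟨Ψ, h1, fun _ => h2⟩
    · exact ⟨1, one_ne_zero, fun h' => absurd h' h⟩
  have hY : ∀ (I : Finset (Fin b)) (a : ℕ), ∃ Ψ : MvPolynomial (Fin b × V) k, Ψ ≠ 0 ∧
      ((a + 3).choose 3 ≤ I.card → ∀ p : Fin b → V → k,
        eval (fun q : Fin b × V => p q.1 q.2) Ψ ≠ 0 →
          ∀ F ∈ HB (k := k) a, (∀ i ∈ I, eval (fun s => p i (Sum.inr s)) F = 0) → F = 0) := by
    intro I a
    by_cases h : (a + 3).choose 3 ≤ I.card
    · obtain ⟨Ψ, h1, h2⟩ := exists_poly' (k := k) Sum.inr Sum.inr_injective (HB a) I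
        (by rw [finrank_HB]; exact h)
      exact ⟨Ψ, h1, fun _ => h2⟩
    · exact ⟨1, one_ne_zero, fun h' => absurd h' h⟩
  choose ΨX hX0 hX1 using hX
  choose ΨY hY0 hY1 using hY
  let T : MvPolynomial (Fin b × V) k := Φ *
    (∏ i : Fin b, (X (i, Sum.inl 0) * X (i, Sum.inr 0))) *
    (∏ I : Finset (Fin b), ∏ a ∈ Finset.range (b + 1), ΨX I a) *
    (∏ I : Finset (Fin b), ∏ a ∈ Finset.range (b + 1), ΨY I a)
  have hT : T ≠ 0 := by
    refine mul_ne_zero (mul_ne_zero (mul_ne_zero hΦ ?_) ?_) ?_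
    · exact Finset.prod_ne_zero_iff.mpr fun i _ => mul_ne_zero (X_ne_zero _) (X_ne_zero _)
    · exact Finset.prod_ne_zero_iff.mpr fun I _ => Finset.prod_ne_zero_iff.mpr fun a _ => hX0 I a
    · exact Finset.prod_ne_zero_iff.mpr fun I _ => Finset.prod_ne_zero_iff.mpr fun a _ => hY0 I a
  obtain ⟨x, hx⟩ : ∃ x : Fin b × V → k, eval x T ≠ 0 := by
    by_contra hcon
    push Not at hcon
    apply hT
    apply MvPolynomial.funext
    intro x
    rw [hcon x, map_zero]
  have hxe : (fun q : Fin b × V => (fun (i : Fin b) (v : V) => x (i, v)) q.1 q.2) = x := rfl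
  simp only [T, map_mul, map_prod, eval_X] at hx
  have h1 := left_ne_zero_of_mul (left_ne_zero_of_mul (left_ne_zero_of_mul hx))
  have h2 := right_ne_zero_of_mul (left_ne_zero_of_mul (left_ne_zero_of_mul hx))
  have h3 := right_ne_zero_of_mul (left_ne_zero_of_mul hx)
  have h4 := right_ne_zero_of_mul hx
  refine ⟨fun i v => x (i, v), h1, ?_, ?_, ?_⟩
  · intro i
    have := Finset.prod_ne_zero_iff.mp h2 i (Finset.mem_univ _)
    exact ⟨⟨0, left_ne_zero_of_mul this⟩, ⟨0, right_ne_zero_of_mul this⟩⟩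
  · intro I a ha F hF hFI
    have hab : a ∈ Finset.range (b + 1) := by
      rw [Finset.mem_range]
      have h5 : I.card ≤ b := by simpa using Finset.card_le_univ I
      have h6 : a + 1 ≤ (a + 2).choose 2 := by
        rw [Nat.choose_succ_succ' (a + 1) 1, Nat.choose_one_right]
        omega
      omega
    have h7 := Finset.prod_ne_zero_iff.mp (Finset.prod_ne_zero_iff.mp h3 I (Finset.mem_univ _)) a hab
    exact hX1 I a ha (fun i v => x (i, v)) h7 F hF hFI
  · intro I a ha F hF hFI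
    have hab : a ∈ Finset.range (b + 1) := by
      rw [Finset.mem_range]
      have h5 : I.card ≤ b := by simpa using Finset.card_le_univ I
      have h6 : a + 1 ≤ (a + 3).choose 3 := by
        rw [Nat.choose_succ_succ' (a + 2) 2, Nat.choose_succ_succ' (a + 1) 1, Nat.choose_one_right]
        omega
      omega
    have h7 := Finset.prod_ne_zero_iff.mp (Finset.prod_ne_zero_iff.mp h4 I (Finset.mem_univ _)) a hab
    exact hY1 I a ha (fun i v => x (i, v)) h7 F hF hFI

end IitInterp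

section IitMain

section
variable (k : Type*) [Field k]

/-- An irreducible closed subvariety of dimension `3` of `P² × P³`: a bihomogeneous prime ideal
containing neither all `xᵢ` nor all `yⱼ`, with its numerical class, which is nonzero exactly when
the dimension is `3` (and not less). -/
structure Threefold where
  P : Ideal (S k)
  prime : P.IsPrime
  bihom : ∀ F ∈ P, ∀ d : ℕ × ℕ, weightedHomogeneousComponent wt d F ∈ P
  relx : ∃ i, (X (Sum.inl i) : S k) ∉ P
  rely : ∃ j, (X (Sum.inr j) : S k) ∉ P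
  cls : Fin 4 → ℤ
  hasCls : HasClass k P cls
  dim_eq : cls ≠ 0

/-- `b` general points of `P² × P³` all lie on an effective `3`-cycle of class `c`: outside a proper
Zariski closed set `Φ = 0` of `b`-tuples of points (given by coordinate vectors with nonzero
`x`-part and nonzero `y`-part) there is a finite list `Z` of irreducible threefolds (repetitions
allowed) with classes adding up to `c` such that every point lies on a member of `Z`. -/
def GenOn (b : ℕ) (c : Fin 4 → ℤ) : Prop :=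
  ∃ Φ : MvPolynomial (Fin b × V) k, Φ ≠ 0 ∧ ∀ p : Fin b → V → k,
    (∀ i, (∃ s, p i (Sum.inl s) ≠ 0) ∧ ∃ s, p i (Sum.inr s) ≠ 0) →
    eval (fun q : Fin b × V => p q.1 q.2) Φ ≠ 0 →
    ∃ Z : List (Threefold k), (Z.map Threefold.cls).sum = c ∧
      ∀ i, ∃ W ∈ Z, ∀ F ∈ W.P, eval (p i) F = 0

/-- The mobility count `mc(m α)`: the largest `b` such that `b` general points of `P² × P³` all lie
on an effective `3`-cycle of class `m α`. -/
def mc (m : ℕ) : ℕ := sSup {b : ℕ | GenOn k b (m • alpha)}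

end

variable {k : Type*} [Field k]

lemma one_le_deg {n d : ℕ} {f : MvPolynomial (Fin n) k} (hf : f.IsHomogeneous d)
    (hi : Irreducible f) : 1 ≤ d := by
  by_contra h0
  have hd : d = 0 := by omega
  subst hd
  have h1 : f.totalDegree = 0 := hf.totalDegree hi.ne_zero
  rw [totalDegree_eq_zero_iff_eq_C] at h1
  apply hi.not_isUnit
  rw [h1]
  have : coeff 0 f ≠ 0 := by
    intro h2
    rw [h2, C_0] at h1
    exact hi.ne_zero h1
  exact (isUnit_iff_ne_zero.mpr this).map C

lemma eval_zero_hom {n d : ℕ} {f : MvPolynomial (Fin n) k} (hf : f.IsHomogeneous d) (hd : 1 ≤ d)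
    {R : Type*} [CommRing R] [Algebra k R] : aeval (fun _ => (0 : R)) f = 0 := by
  have h1 : aeval (fun _ => (0 : R)) f = algebraMap k R (constantCoeff f) := by
    simp
  rw [h1]
  have h2 : constantCoeff f = 0 := by
    rw [constantCoeff_eq]
    exact hf.coeff_eq_zero (by simp; omega)
  rw [h2, map_zero]

lemma not_dvd_both {n : ℕ} {f : MvPolynomial (Fin (n + 2)) k} (hi : Irreducible f)
    (h0 : f ∣ X 0) (h1 : f ∣ X 1) : False := by
  have hX0 : Irreducible (X 0 : MvPolynomial (Fin (n + 2)) k) := X_prime.irreducible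
  have h2 : (X 0 : MvPolynomial (Fin (n + 2)) k) ∣ X 1 := (hi.dvd_symm hX0 h0).trans h1
  rw [X_dvd_X] at h2
  exact absurd h2 (by simp)

lemma dvd_of_mem_x {f : A k} {g : B k} (hg0 : aeval (fun _ => (0 : A k)) g = 0) (F : S k)
    (hF : F ∈ Jfg f g) : f ∣ aeval (Sum.elim X (fun _ => (0 : A k))) F := by
  unfold Jfg at hF
  obtain ⟨u, v, rfl⟩ := Ideal.mem_span_pair.mp hF
  rw [map_add, map_mul, map_mul]
  have h1 : aeval (Sum.elim X (fun _ => (0 : A k))) (ix f) = f := by
    unfold ix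
    rw [aeval_rename]
    simp
  have h2 : aeval (Sum.elim X (fun _ => (0 : A k))) (iy g) = 0 := by
    unfold iy
    rw [aeval_rename]
    exact hg0
  rw [h1, h2, mul_zero, add_zero]
  exact Dvd.intro_left _ rfl

lemma dvd_of_mem_y {f : A k} {g : B k} (hf0 : aeval (fun _ => (0 : B k)) f = 0) (F : S k)
    (hF : F ∈ Jfg f g) : g ∣ aeval (Sum.elim (fun _ => (0 : B k)) X) F := by
  unfold Jfg at hF
  obtain ⟨u, v, rfl⟩ := Ideal.mem_span_pair.mp hF
  rw [map_add, map_mul, map_mul]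
  have h1 : aeval (Sum.elim (fun _ => (0 : B k)) X) (iy g) = g := by
    unfold iy
    rw [aeval_rename]
    simp
  have h2 : aeval (Sum.elim (fun _ => (0 : B k)) X) (ix f) = 0 := by
    unfold ix
    rw [aeval_rename]
    exact hf0
  rw [h1, h2, mul_zero, zero_add]
  exact Dvd.intro_left _ rfl

/-- the product `V(f) × V(g)` -/
def mkT [IsAlgClosed k] {f : A k} {g : B k} {a b : ℕ} (hf : f.IsHomogeneous a)
    (hg : g.IsHomogeneous b) (hfi : Irreducible f) (hgi : Irreducible g) : Threefold k where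
  P := Jfg f g
  prime := Jfg_prime hfi.prime hgi.prime
  bihom := Jfg_comp hf hg
  relx := by
    by_contra hcon
    push Not at hcon
    have h0 := dvd_of_mem_x (eval_zero_hom hg (one_le_deg hg hgi)) _ (hcon 0)
    have h1 := dvd_of_mem_x (eval_zero_hom hg (one_le_deg hg hgi)) _ (hcon 1)
    simp only [aeval_X, Sum.elim_inl] at h0 h1
    exact not_dvd_both hfi h0 h1
  rely := by
    by_contra hcon
    push Not at hcon
    have h0 := dvd_of_mem_y (eval_zero_hom hf (one_le_deg hf hfi)) _ (hcon 0)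
    have h1 := dvd_of_mem_y (eval_zero_hom hf (one_le_deg hf hfi)) _ (hcon 1)
    simp only [aeval_X, Sum.elim_inr] at h0 h1
    exact not_dvd_both hgi h0 h1
  cls := (a * b) • alpha
  hasCls := class_Jfg hf hg hfi.ne_zero hgi.ne_zero
  dim_eq := by
    intro h
    have h1 := congrFun h 1
    have ha := one_le_deg hf hfi
    have hb := one_le_deg hg hgi
    have hab : 0 < a * b := Nat.mul_pos (by omega) (by omega)
    simp [alpha] at h1
    omega

lemma cycle1 [IsAlgClosed k] {f : A k} {a : ℕ} (hf : f.IsHomogeneous a) (hfi : Irreducible f)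
    (l : List (B k × ℕ)) (hl : ∀ p ∈ l, Irreducible p.1 ∧ p.1.IsHomogeneous p.2) :
    ∃ Z : List (Threefold k), (Z.map Threefold.cls).sum = (a * (l.map Prod.snd).sum) • alpha ∧
      ∀ x : V → k, eval (fun s => x (Sum.inl s)) f = 0 →
        (∃ q ∈ l, eval (fun s => x (Sum.inr s)) q.1 = 0) →
          ∃ W ∈ Z, ∀ F ∈ W.P, eval x F = 0 := by
  induction l with
  | nil => exact ⟨[], by simp, by simp⟩
  | cons q l ih =>
    obtain ⟨Z, hZ1, hZ2⟩ := ih fun p hp => hl p (List.mem_cons_of_mem _ hp)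
    obtain ⟨hq1, hq2⟩ := hl q List.mem_cons_self
    refine ⟨mkT hf hq2 hfi hq1 :: Z, ?_, ?_⟩
    · rw [List.map_cons, List.sum_cons, hZ1, List.map_cons, List.sum_cons, mul_add, add_smul]
      rfl
    · rintro x hx ⟨q', hq', hx'⟩
      rcases List.mem_cons.mp hq' with rfl | hq'
      · refine ⟨_, List.mem_cons_self, ?_⟩
        intro F hF
        change F ∈ Jfg f q'.1 at hF
        unfold Jfg at hF
        obtain ⟨u, v, rfl⟩ := Ideal.mem_span_pair.mp hF
        rw [map_add, map_mul, map_mul]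
        have h1 : eval x (ix f) = 0 := by
          unfold ix
          rw [eval_rename]
          exact hx
        have h2 : eval x (iy q'.1) = 0 := by
          unfold iy
          rw [eval_rename]
          exact hx'
        rw [h1, h2]
        ring
      · obtain ⟨W, hW, hW'⟩ := hZ2 x hx ⟨q', hq', hx'⟩
        exact ⟨W, List.mem_cons_of_mem _ hW, hW'⟩

lemma cycle2 [IsAlgClosed k] (l1 : List (A k × ℕ))
    (hl1 : ∀ p ∈ l1, Irreducible p.1 ∧ p.1.IsHomogeneous p.2)
    (l : List (B k × ℕ)) (hl : ∀ p ∈ l, Irreducible p.1 ∧ p.1.IsHomogeneous p.2) :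
    ∃ Z : List (Threefold k),
      (Z.map Threefold.cls).sum = ((l1.map Prod.snd).sum * (l.map Prod.snd).sum) • alpha ∧
      ∀ x : V → k, (∃ q ∈ l1, eval (fun s => x (Sum.inl s)) q.1 = 0) →
        (∃ q ∈ l, eval (fun s => x (Sum.inr s)) q.1 = 0) →
          ∃ W ∈ Z, ∀ F ∈ W.P, eval x F = 0 := by
  induction l1 with
  | nil => exact ⟨[], by simp, by simp⟩
  | cons q l1 ih =>
    obtain ⟨Z, hZ1, hZ2⟩ := ih fun p hp => hl1 p (List.mem_cons_of_mem _ hp)
    obtain ⟨hq1, hq2⟩ := hl1 q List.mem_cons_self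
    obtain ⟨Z', hZ1', hZ2'⟩ := cycle1 hq2 hq1 l hl
    refine ⟨Z' ++ Z, ?_, ?_⟩
    · rw [List.map_append, List.sum_append, hZ1, hZ1', List.map_cons, List.sum_cons, add_mul,
        add_smul]
    · rintro x ⟨q', hq', hx'⟩ hx
      rcases List.mem_cons.mp hq' with rfl | hq'
      · obtain ⟨W, hW, hW'⟩ := hZ2' x hx' hx
        exact ⟨W, List.mem_append_left _ hW, hW'⟩
      · obtain ⟨W, hW, hW'⟩ := hZ2 x ⟨q', hq', hx'⟩ hx
        exact ⟨W, List.mem_append_right _ hW, hW'⟩

lemma zero_factor {n : ℕ} {l : List (MvPolynomial (Fin n) k × ℕ)} {c : k} (hc : c ≠ 0)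
    {f : MvPolynomial (Fin n) k} (hf : f = C c * (l.map Prod.fst).prod) (x : Fin n → k)
    (hx : eval x f = 0) : ∃ q ∈ l, eval x q.1 = 0 := by
  rw [hf, map_mul, eval_C, mul_eq_zero] at hx
  rcases hx with h | h
  · exact absurd h hc
  · rw [map_list_prod, List.prod_eq_zero_iff, List.map_map, List.mem_map] at h
    obtain ⟨q, hq, hq'⟩ := h
    exact ⟨q, hq, hq'⟩

lemma cycle_exists [IsAlgClosed k] {f : A k} {g : B k} {a b : ℕ} (hf : f.IsHomogeneous a)
    (hg : g.IsHomogeneous b) (hf0 : f ≠ 0) (hg0 : g ≠ 0) :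
    ∃ Z : List (Threefold k), (Z.map Threefold.cls).sum = (a * b) • alpha ∧
      ∀ x : V → k, eval (fun s => x (Sum.inl s)) f = 0 → eval (fun s => x (Sum.inr s)) g = 0 →
          ∃ W ∈ Z, ∀ F ∈ W.P, eval x F = 0 := by
  obtain ⟨l1, h1, ⟨c1, hc1, he1⟩, hs1⟩ := factor a f hf hf0
  obtain ⟨l2, h2, ⟨c2, hc2, he2⟩, hs2⟩ := factor b g hg hg0
  obtain ⟨Z, hZ1, hZ2⟩ := cycle2 l1 h1 l2 h2
  rw [hs1, hs2] at hZ1
  exact ⟨Z, hZ1, fun x hx hx' => hZ2 x (zero_factor hc1 he1 _ hx) (zero_factor hc2 he2 _ hx')⟩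

lemma exists_vanish {n d N : ℕ} (x : Fin N → Fin n → k)
    (h : N < Module.finrank k (homogeneousSubmodule (Fin n) k d)) :
    ∃ f : MvPolynomial (Fin n) k, f.IsHomogeneous d ∧ f ≠ 0 ∧ ∀ i, eval (x i) f = 0 := by
  let L : homogeneousSubmodule (Fin n) k d →ₗ[k] (Fin N → k) :=
    LinearMap.pi fun i => (aeval (x i) : MvPolynomial (Fin n) k →ₐ[k] k).toLinearMap ∘ₗ
      (homogeneousSubmodule (Fin n) k d).subtype
  have hker : LinearMap.ker L ≠ ⊥ := by
    apply LinearMap.ker_ne_bot_of_finrank_lt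
    simpa using h
  obtain ⟨f, hf, hf0⟩ := (Submodule.ne_bot_iff _).mp hker
  refine ⟨f.1, f.2, fun h0 => hf0 (Subtype.ext h0), fun i => ?_⟩
  have := congrFun (LinearMap.mem_ker.mp hf) i
  simpa [L, aeval_eq_eval] using this

lemma lower [IsAlgClosed k] (N a b : ℕ) (h1 : N < (a + 2).choose 2) (h2 : N < (b + 3).choose 3) :
    GenOn k N ((a * b) • alpha) := by
  refine ⟨1, one_ne_zero, fun p _ _ => ?_⟩
  obtain ⟨f, hf, hf0, hfv⟩ := exists_vanish (k := k) (d := a) (fun i s => p i (Sum.inl s))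
    (by rw [finrank_HA]; exact h1)
  obtain ⟨g, hg, hg0, hgv⟩ := exists_vanish (k := k) (d := b) (fun i s => p i (Sum.inr s))
    (by rw [finrank_HB]; exact h2)
  obtain ⟨Z, hZ1, hZ2⟩ := cycle_exists hf hg hf0 hg0
  exact ⟨Z, hZ1, fun i => hZ2 (p i) (hfv i) (hgv i)⟩

end IitMain

section IitFinal

variable {k : Type*} [Field k]

lemma pow_bound (N c : ℕ) (h : N ^ 5 ≤ 243 * c ^ 6) : (N : ℝ) ≤ 3 * (c : ℝ) ^ (6 / 5 : ℝ) := by
  have hc0 : (0 : ℝ) ≤ c := Nat.cast_nonneg _
  have h1 : ((c : ℝ) ^ (6 / 5 : ℝ)) ^ 5 = (c : ℝ) ^ 6 := by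
    rw [← Real.rpow_natCast, ← Real.rpow_mul hc0, ← Real.rpow_natCast]
    norm_num
  have h2 : (N : ℝ) ^ 5 ≤ (3 * (c : ℝ) ^ (6 / 5 : ℝ)) ^ 5 := by
    rw [mul_pow, h1]
    have : ((N ^ 5 : ℕ) : ℝ) ≤ ((243 * c ^ 6 : ℕ) : ℝ) := by exact_mod_cast h
    push_cast at this
    norm_num
    linarith
  exact le_of_pow_le_pow_left₀ (by norm_num) (by positivity) h2

lemma num_bound (N a b : ℕ) (ha : 1 ≤ a) (hb : 1 ≤ b) (h1 : N < (a + 2).choose 2)
    (h2 : N < (b + 3).choose 3) : N ^ 5 ≤ 243 * (a * b) ^ 6 := by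
  have h3 : 2 * (a + 2).choose 2 = (a + 2) * (a + 1) := by
    have h := ch2 a
    have : ((2 * (a + 2).choose 2 : ℕ) : ℝ) = (((a + 2) * (a + 1) : ℕ) : ℝ) := by
      push_cast
      rw [h]
      ring
    exact_mod_cast this
  have h4 : 6 * (b + 3).choose 3 = (b + 3) * (b + 2) * (b + 1) := by
    have h := ch3 b
    have : ((6 * (b + 3).choose 3 : ℕ) : ℝ) = (((b + 3) * (b + 2) * (b + 1) : ℕ) : ℝ) := by
      push_cast
      rw [h]
      ring
    exact_mod_cast this
  have h5 : N ≤ 2 * a ^ 2 := by nlinarith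
  have h6 : N ≤ 3 * b ^ 3 := by
    have h7 : 6 * (N + 1) ≤ (b + 3) * (b + 2) * (b + 1) := by rw [← h4]; omega
    have h8 : (b + 3) * (b + 2) * (b + 1) ≤ 18 * b ^ 3 + 6 := by
      obtain ⟨e, rfl⟩ : ∃ e, b = e + 1 := ⟨b - 1, by omega⟩
      ring_nf
      nlinarith [Nat.zero_le (e ^ 3), Nat.zero_le (e ^ 2), Nat.zero_le e]
    omega
  calc N ^ 5 = N ^ 3 * N ^ 2 := by ring
    _ ≤ (2 * a ^ 2) ^ 3 * (3 * b ^ 3) ^ 2 :=
      Nat.mul_le_mul (Nat.pow_le_pow_left h5 3) (Nat.pow_le_pow_left h6 2)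
    _ = 72 * (a * b) ^ 6 := by ring
    _ ≤ 243 * (a * b) ^ 6 := Nat.mul_le_mul_right _ (by norm_num)

lemma cls_of_sum {m : ℕ} (Z : List (Threefold k)) (hZ : (Z.map Threefold.cls).sum = m • alpha) :
    ∀ W ∈ Z, ∃ c : ℕ, 1 ≤ c ∧ W.cls = c • alpha := by
  have hsum : ∀ (Z : List (Threefold k)) (a : Fin 4), (∀ W ∈ Z, 0 ≤ W.cls a) →
      (Z.map Threefold.cls).sum a = 0 → ∀ W ∈ Z, W.cls a = 0 := by
    intro Z
    induction Z with
    | nil => intro a _ _ W hW; simp at hW
    | cons U Z ih =>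
      intro a hpos h0 W hW
      have hU := hpos U List.mem_cons_self
      have hZ0 : 0 ≤ (Z.map Threefold.cls).sum a := by
        have : ∀ (L : List (Threefold k)), (∀ W ∈ L, 0 ≤ W.cls a) →
            0 ≤ (L.map Threefold.cls).sum a := by
          intro L
          induction L with
          | nil => intro _; simp
          | cons V L ihL =>
            intro hL
            rw [List.map_cons, List.sum_cons, Pi.add_apply]
            have := hL V List.mem_cons_self
            have := ihL fun W hW => hL W (List.mem_cons_of_mem _ hW)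
            omega
        exact this Z fun W hW => hpos W (List.mem_cons_of_mem _ hW)
      rw [List.map_cons, List.sum_cons, Pi.add_apply] at h0
      rcases List.mem_cons.mp hW with rfl | hW'
      · omega
      · exact ih a (fun W hW => hpos W (List.mem_cons_of_mem _ hW)) (by omega) W hW'
  intro W hW
  have h3 : W.cls 3 = 0 := le_antisymm (three_nonpos W.hasCls) (three_nonneg W.hasCls)
  have h2 : W.cls 2 = 0 := hsum Z 2 (fun W _ => two_nonneg W.hasCls) (by rw [hZ]; simp [alpha]) W hW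
  have h0 : W.cls 0 = 0 := hsum Z 0 (fun W _ => zero_nonneg W.hasCls) (by rw [hZ]; simp [alpha]) W hW
  have h1 : 0 ≤ W.cls 1 := one_nonneg' W.hasCls h0 h2
  have hne : W.cls 1 ≠ 0 := by
    intro h1'
    apply W.dim_eq
    ext a
    fin_cases a
    · exact h0
    · exact h1'
    · exact h2
    · exact h3
  obtain ⟨c, hc⟩ := Int.eq_ofNat_of_zero_le h1
  refine ⟨c, by omega, ?_⟩
  ext a
  fin_cases a
  · simpa [alpha] using h0
  · simpa [alpha] using hc
  · simpa [alpha] using h2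
  · simpa [alpha] using h3

lemma comp_bound [IsAlgClosed k] {b : ℕ} (p : Fin b → V → k)
    (hpx : ∀ (I : Finset (Fin b)) (a : ℕ), (a + 2).choose 2 ≤ I.card → ∀ F : A k,
      F.IsHomogeneous a → (∀ i ∈ I, eval (fun s => p i (Sum.inl s)) F = 0) → F = 0)
    (hpy : ∀ (I : Finset (Fin b)) (a : ℕ), (a + 3).choose 3 ≤ I.card → ∀ F : B k,
      F.IsHomogeneous a → (∀ i ∈ I, eval (fun s => p i (Sum.inr s)) F = 0) → F = 0)
    (W : Threefold k) {c : ℕ} (hc1 : 1 ≤ c) (hc : W.cls = c • alpha) (I : Finset (Fin b))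
    (hI : ∀ i ∈ I, ∀ F ∈ W.P, eval (p i) F = 0) : (I.card : ℝ) ≤ 3 * (c : ℝ) ^ (6 / 5 : ℝ) := by
  have hcls : HasClass k W.P ((c : ℤ) • alpha) := by
    have := W.hasCls
    rw [hc] at this
    simpa using this
  have hP := W.prime
  obtain ⟨t0, g0, hg0, hg0', hg0P⟩ := exists_y W.P W.relx hcls
  obtain ⟨s0, f0, hf0, hf0', hf0P⟩ := exists_x W.P W.rely (by exact_mod_cast hc1) hcls
  obtain ⟨f, a, hfi, hf, hfP⟩ := exists_factor_mem ix W.P hf0 hf0' hf0P
  obtain ⟨g, d, hgi, hg, hgP⟩ := exists_factor_mem iy W.P hg0 hg0' hg0P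
  obtain ⟨_, hcab⟩ := eq_Jfg W.P W.bihom (by exact_mod_cast hc1) hcls hf hg hfi hgi hfP hgP
  have hcab' : c = a * d := by exact_mod_cast hcab
  have h1 : I.card < (a + 2).choose 2 := by
    by_contra hcon
    push Not at hcon
    refine hfi.ne_zero (hpx I a hcon f hf fun i hi => ?_)
    have := hI i hi _ hfP
    unfold ix at this
    rw [eval_rename] at this
    exact this
  have h2 : I.card < (d + 3).choose 3 := by
    by_contra hcon
    push Not at hcon
    refine hgi.ne_zero (hpy I d hcon g hg fun i hi => ?_)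
    have := hI i hi _ hgP
    unfold iy at this
    rw [eval_rename] at this
    exact this
  apply pow_bound
  rw [hcab']
  exact num_bound _ a d (one_le_deg hf hfi) (one_le_deg hg hgi) h1 h2

lemma upper [IsAlgClosed k] {b m : ℕ} (h : GenOn k b (m • alpha)) :
    (b : ℝ) ≤ 3 * (m : ℝ) ^ (6 / 5 : ℝ) := by
  classical
  have hinf : Infinite k := IsAlgClosed.instInfinite
  obtain ⟨Φ, hΦ, h⟩ := h
  obtain ⟨p, hp0, hp1, hpx, hpy⟩ := exists_points Φ hΦ
  obtain ⟨Z, hZ, hcov⟩ := h p hp1 hp0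
  have hcl := cls_of_sum Z hZ
  -- sum over the list
  have key : ∀ (L : List (Threefold k)) (n : ℕ) (I : Finset (Fin b)), n ≤ m →
      (L.map Threefold.cls).sum = n • alpha → (∀ W ∈ L, ∃ c : ℕ, 1 ≤ c ∧ W.cls = c • alpha) →
      (∀ i ∈ I, ∃ W ∈ L, ∀ F ∈ W.P, eval (p i) F = 0) →
      (I.card : ℝ) ≤ 3 * n * (m : ℝ) ^ (1 / 5 : ℝ) := by
    intro L
    induction L with
    | nil =>
      intro n I _ _ _ hI
      have : I = ∅ := by
        rw [Finset.eq_empty_iff_forall_notMem]
        intro i hi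
        obtain ⟨W, hW, _⟩ := hI i hi
        simp at hW
      rw [this]
      simp only [Finset.card_empty, Nat.cast_zero]
      positivity
    | cons U L ih =>
      intro n I hn hsum hL hI
      obtain ⟨c, hc1, hc⟩ := hL U List.mem_cons_self
      rw [List.map_cons, List.sum_cons, hc] at hsum
      have hsum1 := congrFun hsum 1
      have ec : (c • alpha) 1 = (c : ℤ) := by simp [alpha]
      have en : (n • alpha) 1 = (n : ℤ) := by simp [alpha]
      rw [Pi.add_apply, ec, en] at hsum1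
      have hnonneg : 0 ≤ (L.map Threefold.cls).sum 1 := by
        have : ∀ (L : List (Threefold k)), (∀ W ∈ L, ∃ c : ℕ, 1 ≤ c ∧ W.cls = c • alpha) →
            0 ≤ (L.map Threefold.cls).sum 1 := by
          intro L
          induction L with
          | nil => intro _; simp
          | cons V L ihL =>
            intro hL
            rw [List.map_cons, List.sum_cons, Pi.add_apply]
            obtain ⟨c, _, hc⟩ := hL V List.mem_cons_self
            have := ihL fun W hW => hL W (List.mem_cons_of_mem _ hW)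
            have h5 : V.cls 1 = c := by rw [hc]; simp [alpha]
            omega
        exact this L fun W hW => hL W (List.mem_cons_of_mem _ hW)
      have hcn : c ≤ n := by omega
      have hsum' : (L.map Threefold.cls).sum = (n - c) • alpha := by
        have : n • alpha = c • alpha + (n - c) • alpha := by
          rw [← add_smul]
          congr 1
          omega
        rw [this] at hsum
        exact add_left_cancel hsum
      set I1 := I.filter fun i => ∀ F ∈ U.P, eval (p i) F = 0 with hI1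
      set I2 := I.filter fun i => ¬ ∀ F ∈ U.P, eval (p i) F = 0 with hI2
      have hcard : I.card = I1.card + I2.card := (Finset.card_filter_add_card_filter_not _).symm
      have b1 := comp_bound p hpx hpy U hc1 hc I1 fun i hi => (Finset.mem_filter.mp hi).2
      have b2 := ih (n - c) I2 (by omega) hsum' (fun W hW => hL W (List.mem_cons_of_mem _ hW)) (by
        intro i hi
        rw [hI2, Finset.mem_filter] at hi
        obtain ⟨W, hW, hW'⟩ := hI i hi.1
        rcases List.mem_cons.mp hW with rfl | hW2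
        · exact absurd hW' hi.2
        · exact ⟨W, hW2, hW'⟩)
      have hcm : (c : ℝ) ^ (6 / 5 : ℝ) ≤ c * (m : ℝ) ^ (1 / 5 : ℝ) := by
        have hc0 : (0 : ℝ) < c := by exact_mod_cast hc1
        have e1 : (c : ℝ) ^ (6 / 5 : ℝ) = c * (c : ℝ) ^ (1 / 5 : ℝ) := by
          rw [show (6 / 5 : ℝ) = 1 + 1 / 5 by norm_num, Real.rpow_add hc0, Real.rpow_one]
        rw [e1]
        apply mul_le_mul_of_nonneg_left _ hc0.le
        apply Real.rpow_le_rpow hc0.le _ (by norm_num)
        exact_mod_cast hcn.trans hn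
      rw [hcard]
      push_cast [Nat.cast_sub hcn] at b2 ⊢
      nlinarith
  have h1 := key Z m Finset.univ le_rfl hZ hcl fun i _ => hcov i
  rw [Finset.card_univ, Fintype.card_fin] at h1
  refine h1.trans (le_of_eq ?_)
  rcases Nat.eq_zero_or_pos m with hm | hm
  · subst hm
    norm_num
  · have hm0 : (0 : ℝ) < m := by exact_mod_cast hm
    rw [show (6 / 5 : ℝ) = 1 + 1 / 5 by norm_num, Real.rpow_add hm0, Real.rpow_one]
    ring

/-- Sanity check: the class of an ideal is unique. -/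
lemma class_eq {P : Ideal (S k)} {e e' : Fin 4 → ℤ} (h : HasClass k P e) (h' : HasClass k P e') :
    e = e' := by
  have key : ∀ (e e' : Fin 4 → ℤ), HasClass k P e → HasClass k P e' → ∀ u v : ℕ, 1 ≤ u → 1 ≤ v →
      lead e u v ≤ lead e' u v := by
    rintro e e' ⟨N, C, h⟩ ⟨N', C', h'⟩ u v hu hv
    have h2 : ∀ᶠ n : ℕ in atTop, (lead e u v - lead e' u v) * (n : ℝ) ^ (2 + 1) ≤
        ((C + C') * ((u : ℝ) + v) ^ 2) * (n : ℝ) ^ 2 := by
      filter_upwards [eventually_ge_atTop N, eventually_ge_atTop N'] with n hn hn'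
      have g1 : n ≤ u * n := Nat.le_mul_of_pos_left n hu
      have g2 : n ≤ v * n := Nat.le_mul_of_pos_left n hv
      have h1 := (abs_le.mp (h (u * n) (v * n) (hn.trans g1) (hn.trans g2))).1
      have h3 := (abs_le.mp (h' (u * n) (v * n) (hn'.trans g1) (hn'.trans g2))).2
      have e1 : ∀ e : Fin 4 → ℤ, lead e (u * n) (v * n) = lead e u v * (n : ℝ) ^ 3 := by
        intro e
        rw [lead_eq, lead_eq]
        push_cast
        ring
      rw [e1] at h1 h3
      push_cast at h1 h3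
      have e2 : ∀ K : ℝ, K * ((u : ℝ) * n + v * n) ^ 2 = K * ((u : ℝ) + v) ^ 2 * (n : ℝ) ^ 2 := by
        intro K
        ring
      rw [e2] at h1 h3
      have e3 : (lead e u v - lead e' u v) * (n : ℝ) ^ (2 + 1) =
          lead e u v * (n : ℝ) ^ 3 - lead e' u v * (n : ℝ) ^ 3 := by ring
      rw [e3]
      have e4 : ((C + C') * ((u : ℝ) + v) ^ 2) * (n : ℝ) ^ 2 =
          C * ((u : ℝ) + v) ^ 2 * (n : ℝ) ^ 2 + C' * ((u : ℝ) + v) ^ 2 * (n : ℝ) ^ 2 := by ring
      rw [e4]
      linarith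
    have := pow_le 2 h2
    linarith
  have key2 : ∀ u v : ℕ, 1 ≤ u → 1 ≤ v → lead e u v = lead e' u v := fun u v hu hv =>
    le_antisymm (key e e' h h' u v hu hv) (key e' e h' h u v hu hv)
  have h11 := key2 1 1 le_rfl le_rfl
  have h12 := key2 1 2 le_rfl (by norm_num)
  have h21 := key2 2 1 (by norm_num) le_rfl
  have h13 := key2 1 3 le_rfl (by norm_num)
  rw [lead_eq, lead_eq] at h11 h12 h21 h13
  push_cast at h11 h12 h21 h13
  have r0 : (e 0 : ℝ) = e' 0 := by linarith
  have r1 : (e 1 : ℝ) = e' 1 := by linarith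
  have r2 : (e 2 : ℝ) = e' 2 := by linarith
  have r3 : (e 3 : ℝ) = e' 3 := by linarith
  ext a
  fin_cases a
  · exact_mod_cast r0
  · exact_mod_cast r1
  · exact_mod_cast r2
  · exact_mod_cast r3

/-- Sanity check: the line times plane `x₀ = y₀ = 0` has class `α`. -/
lemma class_line_plane : HasClass k (Jfg (X 0 : A k) (X 0 : B k)) alpha := by
  have := class_Jfg (isHomogeneous_X k (0 : Fin 3)) (isHomogeneous_X k (0 : Fin 4))
    (X_ne_zero _) (X_ne_zero _)
  simpa using this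

lemma mc_greatest [IsAlgClosed k] (m : ℕ) (hm : 1 ≤ m) :
    IsGreatest {b : ℕ | GenOn k b (m • alpha)} (mc k m) := by
  have hne : {b : ℕ | GenOn k b (m • alpha)}.Nonempty := by
    refine ⟨0, ?_⟩
    have := lower (k := k) 0 1 m (by norm_num) (Nat.choose_pos (by omega))
    rwa [one_mul] at this
  have hbdd : BddAbove {b : ℕ | GenOn k b (m • alpha)} := by
    refine ⟨⌊3 * (m : ℝ) ^ (6 / 5 : ℝ)⌋₊, ?_⟩
    intro b hb
    exact Nat.le_floor (upper hb)
  exact ⟨Nat.sSup_mem hne hbdd, fun b hb => le_csSup hbdd hb⟩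

lemma mc_lower [IsAlgClosed k] (j : ℕ) (hj : 1 ≤ j) :
    6 ^ 5 * j ^ 6 ≤ mc k ((6 * j) ^ 5) := by
  have hq : 1 ≤ 6 * j := by omega
  refine (mc_greatest ((6 * j) ^ 5) (Nat.one_le_pow _ _ (by omega))).2 ?_
  have h := lower (k := k) (6 ^ 5 * j ^ 6) ((6 * j) ^ 3) ((6 * j) ^ 2) ?_ ?_
  · rw [← pow_add] at h
    exact h
  · have h := ch2 ((6 * j) ^ 3)
    have h1 : ((6 ^ 5 * j ^ 6 : ℕ) : ℝ) < ((((6 * j) ^ 3 + 2).choose 2 : ℕ) : ℝ) := by
      rw [h]
      push_cast
      have hj1 : (1 : ℝ) ≤ j := by exact_mod_cast hj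
      have : (0 : ℝ) < (j : ℝ) ^ 3 := by positivity
      nlinarith [sq_nonneg ((j : ℝ) ^ 3)]
    exact_mod_cast h1
  · have h := ch3 ((6 * j) ^ 2)
    have h1 : ((6 ^ 5 * j ^ 6 : ℕ) : ℝ) < ((((6 * j) ^ 2 + 3).choose 3 : ℕ) : ℝ) := by
      rw [h]
      push_cast
      have hj1 : (1 : ℝ) ≤ j := by exact_mod_cast hj
      have h2 : (0 : ℝ) < (j : ℝ) ^ 2 := by positivity
      have h3 : (0 : ℝ) < (j : ℝ) ^ 4 := by positivity
      nlinarith
    exact_mod_cast h1

lemma limsup_pos_iff [IsAlgClosed k] (r : ℝ) :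
    0 < limsup (fun m : ℕ => (((mc k m : ℝ) / (m : ℝ) ^ r : ℝ) : EReal)) atTop ↔ r ≤ 6 / 5 := by
  constructor
  · intro h
    by_contra hr
    push Not at hr
    have h1 : Tendsto (fun m : ℕ => (mc k m : ℝ) / (m : ℝ) ^ r) atTop (nhds 0) := by
      have h2 : Tendsto (fun m : ℕ => 3 * (m : ℝ) ^ (-(r - 6 / 5))) atTop (nhds 0) := by
        have h3 := (tendsto_rpow_neg_atTop (by linarith : 0 < r - 6 / 5)).comp
          (tendsto_natCast_atTop_atTop (R := ℝ))
        have h4 := h3.const_mul 3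
        rw [mul_zero] at h4
        exact h4
      refine squeeze_zero' ?_ ?_ h2
      · exact Eventually.of_forall fun m => by positivity
      · filter_upwards [eventually_ge_atTop 1] with m hm
        have hm0 : (0 : ℝ) < m := by exact_mod_cast hm
        have h3 := upper (mc_greatest (k := k) m hm).1
        rw [div_le_iff₀ (Real.rpow_pos_of_pos hm0 r)]
        calc (mc k m : ℝ) ≤ 3 * (m : ℝ) ^ (6 / 5 : ℝ) := h3
          _ = 3 * (m : ℝ) ^ (-(r - 6 / 5)) * (m : ℝ) ^ r := by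
            rw [mul_assoc, ← Real.rpow_add hm0]
            congr 2
            ring
    have h5 : Tendsto (fun m : ℕ => (((mc k m : ℝ) / (m : ℝ) ^ r : ℝ) : EReal)) atTop
        (nhds ((0 : ℝ) : EReal)) := (continuous_coe_real_ereal.tendsto 0).comp h1
    rw [h5.limsup_eq] at h
    simp at h
  · intro hr
    have h1 : (((1 / 6 : ℝ) : ℝ) : EReal) ≤
        limsup (fun m : ℕ => (((mc k m : ℝ) / (m : ℝ) ^ r : ℝ) : EReal)) atTop := by
      refine le_limsup_of_frequently_le ?_ (by isBoundedDefault)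
      rw [frequently_atTop]
      intro M
      refine ⟨(6 * (M + 1)) ^ 5, ?_, ?_⟩
      · calc M ≤ 6 * (M + 1) := by omega
          _ ≤ (6 * (M + 1)) ^ 5 := Nat.le_self_pow (by norm_num) _
      · rw [EReal.coe_le_coe_iff]
        have h2 := mc_lower (k := k) (M + 1) (by omega)
        have h3 : ((6 ^ 5 * (M + 1) ^ 6 : ℕ) : ℝ) ≤ (mc k ((6 * (M + 1)) ^ 5) : ℝ) := by
          exact_mod_cast h2
        have hq : (1 : ℝ) ≤ ((6 * (M + 1)) ^ 5 : ℕ) := by
          exact_mod_cast Nat.one_le_pow _ _ (by omega)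
        rw [le_div_iff₀ (by positivity)]
        have h4 : (((6 * (M + 1)) ^ 5 : ℕ) : ℝ) ^ r ≤ ((6 * ((M : ℝ) + 1))) ^ 6 := by
          calc (((6 * (M + 1)) ^ 5 : ℕ) : ℝ) ^ r ≤ (((6 * (M + 1)) ^ 5 : ℕ) : ℝ) ^ (6 / 5 : ℝ) :=
                Real.rpow_le_rpow_of_exponent_le hq hr
            _ = ((6 * ((M : ℝ) + 1))) ^ 6 := by
                push_cast
                rw [← Real.rpow_natCast, ← Real.rpow_mul (by positivity), ← Real.rpow_natCast]
                norm_num
        push_cast at h3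
        calc 1 / 6 * (((6 * (M + 1)) ^ 5 : ℕ) : ℝ) ^ r ≤ 1 / 6 * ((6 * ((M : ℝ) + 1))) ^ 6 := by
              apply mul_le_mul_of_nonneg_left h4 (by norm_num)
          _ = 6 ^ 5 * ((M : ℝ) + 1) ^ 6 := by ring
          _ ≤ _ := by norm_num; linarith
    refine lt_of_lt_of_le ?_ h1
    rw [← EReal.coe_zero, EReal.coe_lt_coe_iff]
    norm_num

/-- The Iitaka dimension of the class `α` of `P¹ × P²` on `P² × P³` is not an integer: it is `6/5`
with the normalisation `mc(mα) / m^r`, and `12/5` with the normalisation `mc(mα) / m^(r/(n-k))`,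
`n - k = 5 - 3 = 2`. -/
theorem result (k : Type*) [Field k] [IsAlgClosed k] :
    (∀ m : ℕ, 1 ≤ m → IsGreatest {b : ℕ | GenOn k b (m • alpha)} (mc k m)) ∧
    IsGreatest {r : ℝ |
      0 < limsup (fun m : ℕ => (((mc k m : ℝ) / (m : ℝ) ^ r : ℝ) : EReal)) atTop} (6 / 5) ∧
    IsGreatest {r : ℝ |
      0 < limsup (fun m : ℕ => (((mc k m : ℝ) / (m : ℝ) ^ (r / 2) : ℝ) : EReal)) atTop} (12 / 5) ∧
    (∀ n : ℤ, (n : ℝ) ≠ 6 / 5) ∧ (∀ n : ℤ, (n : ℝ) ≠ 12 / 5) := by
  refine ⟨fun m hm => mc_greatest m hm, ⟨?_, ?_⟩, ⟨?_, ?_⟩, ?_, ?_⟩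
  · exact (limsup_pos_iff _).mpr le_rfl
  · intro r hr
    exact (limsup_pos_iff r).mp hr
  · exact (limsup_pos_iff _).mpr (by norm_num)
  · intro r hr
    have := (limsup_pos_iff (r / 2)).mp hr
    linarith
  · intro n hn
    have h1 : (5 * n : ℝ) = 6 := by rw [hn]; norm_num
    have h2 : 5 * n = 6 := by exact_mod_cast h1
    omega
  · intro n hn
    have h1 : (5 * n : ℝ) = 12 := by rw [hn]; norm_num
    have h2 : 5 * n = 12 := by exact_mod_cast h1
    omega

end IitFinal

end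

end Pool.Agent.Results.MP_b7b517_ag.ProductClass
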